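import Mathlib

/-!
Ultrametrically valued rational vector spaces with full residue spaces and countable nested balls:
any two of them are connected by a total linear correspondence preserving values.
-/

namespace Pool.Agent.R337.AC

structure ValSpace (C V : Type) [AddCommGroup C] [Module ℚ C] [AddCommGroup V] [Module ℚ V] where
  ν : V → ℝ
  c : ℝ → V → C
  nonneg : ∀ x, 0 ≤ ν x
  zero : ν 0 = 0
  add_le : ∀ x y, ν (x + y) ≤ max (ν x) (ν y)
  smul : ∀ (q : ℚ) x, q ≠ 0 → ν (q • x) = ν x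
  c_add : ∀ s x y, ν x ≤ s → ν y ≤ s → c s (x + y) = c s x + c s y
  c_smul : ∀ s (q : ℚ) x, ν x ≤ s → c s (q • x) = q • c s x
  c_zero : ∀ s x, 0 < s → ν x ≤ s → (c s x = 0 ↔ ν x < s)
  c_surj : ∀ s, 0 < s → ∀ z, ∃ x, ν x ≤ s ∧ c s x = z
  complete : ∀ (a : ℕ → V) (s : ℕ → ℝ), Antitone s →
    (∀ n m, n ≤ m → ν (a m - a n) ≤ s n) → ∃ y, ∀ n, ν (y - a n) ≤ s n

section
variable {C V W : Type} [AddCommGroup C] [Module ℚ C] [AddCommGroup V] [Module ℚ V]
  [AddCommGroup W] [Module ℚ W]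

namespace ValSpace
variable (S : ValSpace C V)

theorem neg (x : V) : S.ν (-x) = S.ν x := by
  have := S.smul (-1) x (by norm_num)
  simpa using this

theorem sub_comm' (x y : V) : S.ν (x - y) = S.ν (y - x) := by
  rw [← S.neg, neg_sub]

theorem sub_le (x y : V) : S.ν (x - y) ≤ max (S.ν x) (S.ν y) := by
  rw [sub_eq_add_neg, ← S.neg y]
  exact S.add_le _ _

theorem add_eq {x y : V} (h : S.ν x < S.ν y) : S.ν (x + y) = S.ν y := by
  apply le_antisymm
  · have := S.add_le x y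
    rwa [max_eq_right h.le] at this
  · have := S.sub_le (x + y) x
    rw [add_sub_cancel_left] at this
    rcases le_max_iff.mp this with h1 | h1
    · exact h1
    · exact absurd h1 (not_le.mpr h)

theorem add_eq_zero {x y : V} (h : S.ν x = 0) : S.ν (x + y) = S.ν y := by
  rcases (S.nonneg y).eq_or_lt with hy | hy
  · have := S.add_le x y
    rw [h, ← hy, max_self] at this
    rw [← hy]
    exact le_antisymm this (S.nonneg _)
  · exact S.add_eq (by rw [h]; exact hy)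

theorem c_neg {s : ℝ} {x : V} (h : S.ν x ≤ s) : S.c s (-x) = - S.c s x := by
  have := S.c_smul s (-1) x h
  simpa using this

theorem c_sub {s : ℝ} {x y : V} (h : S.ν x ≤ s) (h' : S.ν y ≤ s) :
    S.c s (x - y) = S.c s x - S.c s y := by
  rw [sub_eq_add_neg, S.c_add s x (-y) h (by rwa [S.neg]), S.c_neg h', sub_eq_add_neg]

theorem c_eq_zero {s : ℝ} {x : V} (h : S.ν x < s) : S.c s x = 0 :=
  (S.c_zero s x (lt_of_le_of_lt (S.nonneg x) h) h.le).mpr h

end ValSpace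

def Compat (S : ValSpace C V) (T : ValSpace C W) (x : V) (y : W) : Prop :=
  S.ν x = T.ν y ∧ ∀ s, 0 < s → S.ν x ≤ s → S.c s x = T.c s y

variable (S : ValSpace C V) (T : ValSpace C W)

theorem Compat.symm {S : ValSpace C V} {T : ValSpace C W} {x : V} {y : W}
    (h : Compat S T x y) : Compat T S y x :=
  ⟨h.1.symm, fun s hs hy => (h.2 s hs (h.1 ▸ hy)).symm⟩

theorem Compat.smul {S : ValSpace C V} {T : ValSpace C W} {x : V} {y : W}
    (h : Compat S T x y) {q : ℚ} (hq : q ≠ 0) : Compat S T (q • x) (q • y) := by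
  refine ⟨by rw [S.smul q x hq, T.smul q y hq, h.1], fun s hs hx => ?_⟩
  rw [S.smul q x hq] at hx
  rw [S.c_smul s q x hx, T.c_smul s q y (h.1 ▸ hx), h.2 s hs hx]

theorem compat_zero : Compat S T 0 0 := by
  refine ⟨by rw [S.zero, T.zero], fun s hs _ => ?_⟩
  rw [S.c_eq_zero (by rwa [S.zero]), T.c_eq_zero (by rwa [T.zero])]

theorem extend_one (Γ : Submodule ℚ (V × W)) (hΓ : ∀ p ∈ Γ, Compat S T p.1 p.2) (x : V) :
    ∃ y : W, ∀ p ∈ Γ, Compat S T (x - p.1) (y - p.2) := by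
  by_cases h : ∃ p ∈ Γ, ∀ p' ∈ Γ, S.ν (x - p.1) ≤ S.ν (x - p'.1)
  · obtain ⟨p, hp, hmin⟩ := h
    rcases (S.nonneg (x - p.1)).eq_or_lt with h0 | h0
    · refine ⟨p.2, fun p' hp' => ?_⟩
      have hc := hΓ _ (Γ.sub_mem hp hp')
      simp only [Prod.fst_sub, Prod.snd_sub] at hc
      have e : x - p'.1 = (x - p.1) + (p.1 - p'.1) := by abel
      have hν : S.ν (x - p'.1) = S.ν (p.1 - p'.1) := by
        rw [e]; exact S.add_eq_zero h0.symm
      refine ⟨by rw [hν, hc.1], fun s hs hxs => ?_⟩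
      rw [hν] at hxs
      rw [e, S.c_add s _ _ (by rw [← h0]; exact hs.le) hxs, S.c_eq_zero (by rw [← h0]; exact hs),
        zero_add]
      exact hc.2 s hs hxs
    · obtain ⟨y0, hy0, hcy⟩ := T.c_surj (S.ν (x - p.1)) h0 (S.c (S.ν (x - p.1)) (x - p.1))
      refine ⟨p.2 + y0, fun p' hp' => ?_⟩
      set s₀ := S.ν (x - p.1) with hs₀
      have hc := hΓ _ (Γ.sub_mem hp' hp)
      simp only [Prod.fst_sub, Prod.snd_sub] at hc
      have e : x - p'.1 = (x - p.1) - (p'.1 - p.1) := by abel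
      have e' : p.2 + y0 - p'.2 = y0 - (p'.2 - p.2) := by abel
      have hge := hmin p' hp'
      rw [e'] 
      rcases le_or_gt (S.ν (p'.1 - p.1)) s₀ with hle | hgt
      · have hν : S.ν (x - p'.1) = s₀ := by
          refine le_antisymm ?_ hge
          rw [e]
          exact (S.sub_le _ _).trans (max_le hs₀.ge hle)
        have hle' : T.ν (p'.2 - p.2) ≤ s₀ := hc.1 ▸ hle
        have hcs : S.c s₀ (x - p'.1) = T.c s₀ (y0 - (p'.2 - p.2)) := by
          rw [e, S.c_sub hs₀.ge hle, T.c_sub hy0 hle', hcy, hc.2 s₀ h0 hle]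
        have hν' : T.ν (y0 - (p'.2 - p.2)) = s₀ := by
          have h1 : T.ν (y0 - (p'.2 - p.2)) ≤ s₀ := (T.sub_le _ _).trans (max_le hy0 hle')
          refine le_antisymm h1 ?_
          by_contra hlt
          have h2 := (T.c_zero s₀ _ h0 h1).mpr (not_le.mp hlt)
          rw [← hcs] at h2
          have h3 := (S.c_zero s₀ _ h0 hν.le).mp h2
          exact absurd hν (ne_of_lt h3)
        refine ⟨by rw [hν, hν'], fun s hs hxs => ?_⟩
        rw [hν] at hxs
        rcases hxs.eq_or_lt with h1 | h1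
        · rw [← h1]; exact hcs
        · rw [S.c_eq_zero (by rw [hν]; exact h1), T.c_eq_zero (by rw [hν']; exact h1)]
      · have hν : S.ν (x - p'.1) = S.ν (p'.1 - p.1) := by
          rw [e, sub_eq_add_neg, S.add_eq (by rw [S.neg]; exact hgt), S.neg]
        have hgt' : T.ν y0 < T.ν (p'.2 - p.2) := by rw [← hc.1]; exact lt_of_le_of_lt hy0 hgt
        have hν' : T.ν (y0 - (p'.2 - p.2)) = T.ν (p'.2 - p.2) := by
          rw [sub_eq_add_neg, T.add_eq (by rw [T.neg]; exact hgt'), T.neg]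
        refine ⟨by rw [hν, hν', hc.1], fun s hs hxs => ?_⟩
        rw [hν] at hxs
        have hlt : s₀ < s := lt_of_lt_of_le hgt hxs
        rw [e, S.c_sub (le_of_lt (by rw [← hs₀]; exact hlt)) hxs,
          T.c_sub (hy0.trans hlt.le) (hc.1 ▸ hxs), hc.2 s hs hxs,
          S.c_eq_zero (by rw [← hs₀]; exact hlt), T.c_eq_zero (lt_of_le_of_lt hy0 hlt)]
  · push Not at h
    set A : Set ℝ := {t | ∃ p ∈ Γ, t = S.ν (x - p.1)} with hA
    have hne : A.Nonempty := ⟨_, 0, Γ.zero_mem, rfl⟩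
    have hbd : BddBelow A := ⟨0, by rintro _ ⟨p, -, rfl⟩; exact S.nonneg _⟩
    set σ := sInf A with hσ
    have hlt : ∀ p ∈ Γ, σ < S.ν (x - p.1) := by
      intro p hp
      obtain ⟨p', hp', hlt⟩ := h p hp
      exact lt_of_le_of_lt (csInf_le hbd ⟨p', hp', rfl⟩) hlt
    have hseq : ∀ n : ℕ, ∃ p ∈ Γ, S.ν (x - p.1) < σ + 1 / ((n : ℝ) + 1) := by
      intro n
      obtain ⟨_, ⟨p, hp, rfl⟩, h1⟩ := Real.lt_sInf_add_pos hne
        (show (0 : ℝ) < 1 / ((n : ℝ) + 1) by positivity)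
      exact ⟨p, hp, h1⟩
    choose p hp hpn using hseq
    have hanti : Antitone (fun n : ℕ => σ + 1 / ((n : ℝ) + 1)) := by
      intro a b hab
      have : ((a : ℝ) + 1) ≤ (b : ℝ) + 1 := by
        have : (a : ℝ) ≤ b := by exact_mod_cast hab
        linarith
      have h2 := one_div_le_one_div_of_le (by positivity) this
      simp only
      linarith
    have hab : ∀ n m, n ≤ m → T.ν ((p m).2 - (p n).2) ≤ σ + 1 / ((n : ℝ) + 1) := by
      intro n m hnm
      have hc := hΓ _ (Γ.sub_mem (hp m) (hp n))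
      simp only [Prod.fst_sub, Prod.snd_sub] at hc
      rw [← hc.1]
      have e : (p m).1 - (p n).1 = (x - (p n).1) - (x - (p m).1) := by abel
      rw [e]
      exact (S.sub_le _ _).trans (max_le (hpn n).le ((hpn m).le.trans (hanti hnm)))
    obtain ⟨y, hy⟩ := T.complete (fun n => (p n).2) _ hanti hab
    refine ⟨y, fun p' hp' => ?_⟩
    obtain ⟨n, hn⟩ := exists_nat_one_div_lt (sub_pos.mpr (hlt p' hp'))
    have hn' : σ + 1 / ((n : ℝ) + 1) < S.ν (x - p'.1) := by linarith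
    have hc := hΓ _ (Γ.sub_mem (hp n) hp')
    simp only [Prod.fst_sub, Prod.snd_sub] at hc
    have e : (p n).1 - p'.1 = -(x - (p n).1) + (x - p'.1) := by abel
    have ex : x - p'.1 = (x - (p n).1) + ((p n).1 - p'.1) := by abel
    have ey : y - p'.2 = (y - (p n).2) + ((p n).2 - p'.2) := by abel
    have h1 : S.ν ((p n).1 - p'.1) = S.ν (x - p'.1) := by
      rw [e]
      exact S.add_eq (by rw [S.neg]; exact (hpn n).trans hn')
    have h2 : T.ν (y - (p n).2) < T.ν ((p n).2 - p'.2) := by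
      rw [← hc.1, h1]; exact lt_of_le_of_lt (hy n) hn'
    have h3 : T.ν (y - p'.2) = S.ν (x - p'.1) := by
      rw [ey, T.add_eq h2, ← hc.1, h1]
    refine ⟨h3.symm, fun s hs hxs => ?_⟩
    have h4 : S.ν (x - (p n).1) < s := ((hpn n).trans hn').trans_le hxs
    have h5 : T.ν (y - (p n).2) < s := (lt_of_le_of_lt (hy n) hn').trans_le hxs
    rw [ex, S.c_add s _ _ h4.le (by rw [h1]; exact hxs), ey,
      T.c_add s _ _ h5.le (by rw [← hc.1, h1]; exact hxs), S.c_eq_zero h4, T.c_eq_zero h5,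
      hc.2 s hs (by rw [h1]; exact hxs)]

theorem good_sup (Γ : Submodule ℚ (V × W)) (hΓ : ∀ p ∈ Γ, Compat S T p.1 p.2) (x : V) (y : W)
    (h : ∀ p ∈ Γ, Compat S T (x - p.1) (y - p.2)) :
    ∀ p ∈ Γ ⊔ Submodule.span ℚ {(x, y)}, Compat S T p.1 p.2 := by
  intro p hp
  obtain ⟨g, hg, z, hz, rfl⟩ := Submodule.mem_sup.mp hp
  obtain ⟨q, rfl⟩ := Submodule.mem_span_singleton.mp hz
  by_cases hq : q = 0
  · subst hq
    simpa using hΓ g hg
  · have h1 := (h (-(q⁻¹ • g)) (Γ.neg_mem (Γ.smul_mem _ hg))).smul hq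
    simp only [Prod.fst_neg, Prod.smul_fst, sub_neg_eq_add, smul_add, smul_smul,
      mul_inv_cancel₀ hq, one_smul, Prod.snd_neg, Prod.smul_snd] at h1
    simp only [Prod.fst_add, Prod.snd_add, Prod.smul_fst, Prod.smul_snd]
    rw [add_comm g.1, add_comm g.2]
    exact h1

theorem exists_corr : ∃ Γ : Submodule ℚ (V × W), (∀ p ∈ Γ, S.ν p.1 = T.ν p.2) ∧
    (∀ x, ∃ y, (x, y) ∈ Γ) ∧ (∀ y, ∃ x, (x, y) ∈ Γ) := by
  obtain ⟨Γ, hΓ⟩ := zorn_le₀ {Γ : Submodule ℚ (V × W) | ∀ p ∈ Γ, Compat S T p.1 p.2} (by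
    intro c hc hchain
    rcases c.eq_empty_or_nonempty with rfl | hne
    · refine ⟨⊥, ?_, by simp⟩
      intro p hp
      rw [Submodule.mem_bot] at hp
      subst hp
      exact compat_zero S T
    · refine ⟨sSup c, ?_, fun z hz => le_sSup hz⟩
      intro p hp
      rw [Submodule.mem_sSup_of_directed hne hchain.directedOn] at hp
      obtain ⟨Γ, hΓc, hpΓ⟩ := hp
      exact hc hΓc p hpΓ)
  have hg : ∀ p ∈ Γ, Compat S T p.1 p.2 := hΓ.prop
  have key : ∀ x y, (∀ p ∈ Γ, Compat S T (x - p.1) (y - p.2)) → (x, y) ∈ Γ := by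
    intro x y h
    have h1 : Γ ⊔ Submodule.span ℚ {(x, y)} ≤ Γ :=
      hΓ.le_of_ge (good_sup S T Γ hg x y h) le_sup_left
    exact h1 (Submodule.mem_sup_right (Submodule.mem_span_singleton_self _))
  refine ⟨Γ, fun p hp => (hg p hp).1, fun x => ?_, fun y => ?_⟩
  · obtain ⟨y, hy⟩ := extend_one S T Γ hg x
    exact ⟨y, key x y hy⟩
  · obtain ⟨x, hx⟩ := extend_one T S (Γ.map (LinearEquiv.prodComm ℚ V W).toLinearMap) (by
      rintro _ ⟨p, hp, rfl⟩
      exact (hg p hp).symm) y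
    refine ⟨x, key x y fun p hp => ?_⟩
    exact (hx (p.2, p.1) ⟨p, hp, rfl⟩).symm

theorem exists_rel : ∃ R : V → W → Prop,
    (∀ x y x' y', R x y → R x' y' → S.ν (x - x') = T.ν (y - y')) ∧
    (∀ x, ∃ y, R x y) ∧ (∀ y, ∃ x, R x y) := by
  obtain ⟨Γ, h1, h2, h3⟩ := exists_corr S T
  exact ⟨fun x y => (x, y) ∈ Γ, fun x y x' y' h h' => h1 _ (Γ.sub_mem h h'), h2, h3⟩

end

end Pool.Agent.R337.AC
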