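import Mathlib
import Pool.Agent.R337.AC.Val

/-!
Coefficient maps for a valued rational vector space of size continuum.
-/

open Cardinal

namespace Pool.Agent.R337.AC

theorem nonempty_equiv_real (Q : Type) [AddCommGroup Q] [Module ℚ Q] (h : #Q = 𝔠) :
    Nonempty (Q ≃ₗ[ℚ] ℝ) := by
  apply nonempty_linearEquiv_of_rank_eq
  rw [Real.rank_rat_real, Module.Free.rank_eq_mk_of_infinite_lt ℚ Q, h]
  rw [h]
  simpa using aleph0_lt_continuum

theorem exists_coeff_one {V : Type} [AddCommGroup V] [Module ℚ V] (ν : V → ℝ)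
    (zero : ν 0 = 0) (add_le : ∀ x y, ν (x + y) ≤ max (ν x) (ν y))
    (smul : ∀ (q : ℚ) x, q ≠ 0 → ν (q • x) = ν x)
    (hcard : #V ≤ 𝔠) (s : ℝ) (hs : 0 < s)
    (hlow : ∃ g : ℝ → V, (∀ a, ν (g a) ≤ s) ∧ ∀ a b, a ≠ b → ¬ ν (g a - g b) < s) :
    ∃ c : V → ℝ, (∀ x y, ν x ≤ s → ν y ≤ s → c (x + y) = c x + c y) ∧
      (∀ (q : ℚ) x, ν x ≤ s → c (q • x) = q • c x) ∧
      (∀ x, ν x ≤ s → (c x = 0 ↔ ν x < s)) ∧ (∀ z, ∃ x, ν x ≤ s ∧ c x = z) := by
  classical
  let Le : Submodule ℚ V :=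
    { carrier := {x | ν x ≤ s}
      add_mem' := fun {x y} hx hy => (add_le x y).trans (max_le hx hy)
      zero_mem' := by
        change ν 0 ≤ s
        rw [zero]; exact hs.le
      smul_mem' := fun q x hx => by
        change ν (q • x) ≤ s
        by_cases hq : q = 0
        · rw [hq, zero_smul, zero]; exact hs.le
        · rw [smul q x hq]; exact hx }
  let Lt : Submodule ℚ V :=
    { carrier := {x | ν x < s}
      add_mem' := fun {x y} hx hy => lt_of_le_of_lt (add_le x y) (max_lt hx hy)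
      zero_mem' := by
        change ν 0 < s
        rw [zero]; exact hs
      smul_mem' := fun q x hx => by
        change ν (q • x) < s
        by_cases hq : q = 0
        · rw [hq, zero_smul, zero]; exact hs
        · rw [smul q x hq]; exact hx }
  have hLe : ∀ x, x ∈ Le ↔ ν x ≤ s := fun x => Iff.rfl
  have hLt : ∀ x, x ∈ Lt ↔ ν x < s := fun x => Iff.rfl
  obtain ⟨g, hg1, hg2⟩ := hlow
  have hQ : #(Le ⧸ Lt.submoduleOf Le) = 𝔠 := by
    apply le_antisymm
    · calc #(Le ⧸ Lt.submoduleOf Le) ≤ #Le :=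
            mk_le_of_surjective (Submodule.mkQ_surjective (Lt.submoduleOf Le))
        _ ≤ #V := mk_le_of_injective (Subtype.val_injective)
        _ ≤ 𝔠 := hcard
    · rw [← mk_real]
      refine mk_le_of_injective
        (f := fun a : ℝ => (Lt.submoduleOf Le).mkQ ⟨g a, hg1 a⟩) fun a b hab => ?_
      by_contra hne
      apply hg2 a b hne
      have h1 := (Submodule.Quotient.eq (Lt.submoduleOf Le)).mp hab
      exact (hLt _).mp h1
  obtain ⟨e⟩ := nonempty_equiv_real _ hQ
  refine ⟨fun x => if h : ν x ≤ s then e ((Lt.submoduleOf Le).mkQ ⟨x, h⟩) else 0,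
    fun x y hx hy => ?_, fun q x hx => ?_, fun x hx => ?_, fun z => ?_⟩
  · have hxy : ν (x + y) ≤ s := (add_le x y).trans (max_le hx hy)
    simp only [dif_pos hx, dif_pos hy, dif_pos hxy]
    rw [← map_add, ← map_add]
    rfl
  · have hxy : ν (q • x) ≤ s := Le.smul_mem q hx
    simp only [dif_pos hx, dif_pos hxy]
    rw [← map_smul, ← map_smul]
    rfl
  · simp only [dif_pos hx]
    rw [LinearEquiv.map_eq_zero_iff, Submodule.mkQ_apply, Submodule.Quotient.mk_eq_zero]
    exact hLt x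
  · obtain ⟨⟨x, hx⟩, hxz⟩ := Submodule.mkQ_surjective (Lt.submoduleOf Le) (e.symm z)
    refine ⟨x, hx, ?_⟩
    have hx' : ν x ≤ s := hx
    simp only [dif_pos hx']
    rw [hxz, LinearEquiv.apply_symm_apply]

end Pool.Agent.R337.AC
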