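import Mathlib

/-!
Definitions for the question whether asymptotic cones determine the sequence distortion spectrum:
asymptotic cones, geodesic spaces, rate functions, distorted sequences and the spectrum.
-/

open Filter Topology

namespace Pool.Agent.R337.AC

/-- A sequence of positive scales tending to infinity. -/
structure Scales where
  r : ℕ → ℝ
  pos : ∀ i, 0 < r i
  tendsto : Tendsto r atTop atTop

/-- Sequences of points at `ω`-bounded rescaled distance from the basepoints `x i`. -/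
def ConeSeq {X : Type} [MetricSpace X] (ω : Ultrafilter ℕ) (x : ℕ → X) (r : Scales) : Type :=
  {y : ℕ → X // ∃ C : ℝ, ∀ᶠ i in (ω : Filter ℕ), dist (y i) (x i) ≤ C * r.r i}

theorem exists_ulim (ω : Ultrafilter ℕ) {a : ℕ → ℝ} {C : ℝ}
    (h : ∀ᶠ i in (ω : Filter ℕ), |a i| ≤ C) : ∃ L, Tendsto a (ω : Filter ℕ) (𝓝 L) := by
  have hc : IsCompact (Set.Icc (-C) C) := isCompact_Icc
  have hle : ((ω.map a : Ultrafilter ℝ) : Filter ℝ) ≤ 𝓟 (Set.Icc (-C) C) := by
    rw [le_principal_iff, Ultrafilter.coe_map, mem_map]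
    filter_upwards [h] with i hi
    exact abs_le.mp hi
  obtain ⟨L, -, hL⟩ := hc.ultrafilter_le_nhds _ hle
  exact ⟨L, hL⟩

theorem tendsto_ulim (ω : Ultrafilter ℕ) {a : ℕ → ℝ} {C : ℝ}
    (h : ∀ᶠ i in (ω : Filter ℕ), |a i| ≤ C) :
    Tendsto a (ω : Filter ℕ) (𝓝 (limUnder (ω : Filter ℕ) a)) :=
  tendsto_nhds_limUnder (exists_ulim ω h)

section
variable {X : Type} [MetricSpace X] {ω : Ultrafilter ℕ} {x : ℕ → X} {r : Scales}

/-- The rescaled limit distance of two sequences. -/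
noncomputable def coneDist (y z : ConeSeq ω x r) : ℝ :=
  limUnder (ω : Filter ℕ) (fun i => dist (y.1 i) (z.1 i) / r.r i)

theorem coneDist_tendsto (y z : ConeSeq ω x r) :
    Tendsto (fun i => dist (y.1 i) (z.1 i) / r.r i) (ω : Filter ℕ) (𝓝 (coneDist y z)) := by
  obtain ⟨C, hC⟩ := y.2
  obtain ⟨C', hC'⟩ := z.2
  refine tendsto_ulim ω (C := C + C') ?_
  filter_upwards [hC, hC'] with i hi hi'
  have hr := r.pos i
  rw [abs_of_nonneg (div_nonneg dist_nonneg hr.le), div_le_iff₀ hr]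
  have := dist_triangle_right (y.1 i) (z.1 i) (x i)
  nlinarith

noncomputable instance : PseudoMetricSpace (ConeSeq ω x r) where
  dist := coneDist
  dist_self y := by
    refine tendsto_nhds_unique (coneDist_tendsto y y) ?_
    simp
  dist_comm y z := by
    refine tendsto_nhds_unique (coneDist_tendsto y z) ?_
    simpa [dist_comm] using coneDist_tendsto z y
  dist_triangle y z w := by
    refine le_of_tendsto_of_tendsto' (coneDist_tendsto y w)
      ((coneDist_tendsto y z).add (coneDist_tendsto z w)) fun i => ?_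
    rw [← add_div]
    exact div_le_div_of_nonneg_right (dist_triangle _ _ _) (r.pos i).le

theorem cone_dist_def (y z : ConeSeq ω x r) : dist y z = coneDist y z := rfl

end

/-- The asymptotic cone of `X` with basepoints `x i`, scales `r i` and ultrafilter `ω`:
the `ω`-ultralimit of the pointed spaces `(X, (r i)⁻¹ dist, x i)`. -/
abbrev Cone {X : Type} [MetricSpace X] (ω : Ultrafilter ℕ) (x : ℕ → X) (r : Scales) : Type :=
  SeparationQuotient (ConeSeq ω x r)

/-- Any two points are joined by an isometric copy of an interval. -/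
def IsGeodesic (X : Type) [MetricSpace X] : Prop :=
  ∀ p q : X, ∃ γ : ℝ → X, γ 0 = p ∧ γ (dist p q) = q ∧
    ∀ s ∈ Set.Icc (0 : ℝ) (dist p q), ∀ t ∈ Set.Icc (0 : ℝ) (dist p q),
      dist (γ s) (γ t) = |s - t|

/-- Rate functions (the value at `0` plays no role). -/
structure IsRate (f : ℕ → ℝ) : Prop where
  pos : ∀ n, 1 ≤ n → 0 < f n
  mono : ∀ m n, 1 ≤ m → m ≤ n → f m ≤ f n
  unbounded : ∀ C : ℝ, ∃ n, 1 ≤ n ∧ C < f n
  scaling : ∀ M : ℕ, 1 ≤ M → ∃ c C : ℝ, 0 < c ∧ 0 < C ∧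
    ∃ N₀ : ℕ, ∀ N, N₀ ≤ N → c * f N ≤ f (M * N) ∧ f (M * N) ≤ C * f N

/-- Same growth type. -/
def SameGrowth (f g : ℕ → ℝ) : Prop :=
  ∃ c C : ℝ, 0 < c ∧ 0 < C ∧ ∃ N₀ : ℕ, ∀ N, N₀ ≤ N → c * g N ≤ f N ∧ f N ≤ C * g N

theorem SameGrowth.refl (f : ℕ → ℝ) : SameGrowth f f :=
  ⟨1, 1, one_pos, one_pos, 0, fun N _ => by simp⟩

theorem SameGrowth.symm {f g : ℕ → ℝ} (h : SameGrowth f g) : SameGrowth g f := by
  obtain ⟨c, C, hc, hC, N₀, h⟩ := h
  refine ⟨C⁻¹, c⁻¹, inv_pos.mpr hC, inv_pos.mpr hc, N₀, fun N hN => ?_⟩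
  obtain ⟨h1, h2⟩ := h N hN
  constructor
  · rw [inv_mul_le_iff₀ hC]; exact h2
  · rw [le_inv_mul_iff₀ hc]; exact h1

theorem SameGrowth.trans {f g k : ℕ → ℝ} (h : SameGrowth f g) (h' : SameGrowth g k) :
    SameGrowth f k := by
  obtain ⟨c, C, hc, hC, N₀, h⟩ := h
  obtain ⟨c', C', hc', hC', N₀', h'⟩ := h'
  refine ⟨c * c', C * C', by positivity, by positivity, max N₀ N₀', fun N hN => ?_⟩
  obtain ⟨h1, h2⟩ := h N (le_trans (le_max_left _ _) hN)
  obtain ⟨h3, h4⟩ := h' N (le_trans (le_max_right _ _) hN)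
  constructor
  · calc c * c' * k N = c * (c' * k N) := by ring
      _ ≤ c * g N := by gcongr
      _ ≤ f N := h1
  · calc f N ≤ C * g N := h2
      _ ≤ C * (C' * k N) := by gcongr
      _ = C * C' * k N := by ring

/-- Growth types of rate functions. -/
def growthSetoid : Setoid {f : ℕ → ℝ // IsRate f} where
  r f g := SameGrowth f.1 g.1
  iseqv := ⟨fun f => SameGrowth.refl f.1, fun h => h.symm, fun h h' => h.trans h'⟩

/-- The sequence `(p n)`, `n ∈ I`, is `f`-distorted. -/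
def IsDistorted {X : Type} [MetricSpace X] (I : Set ℤ) (f : ℕ → ℝ) (p : I → X) : Prop :=
  ∃ A B : ℝ, 0 < A ∧ 0 < B ∧ ∃ N₀ : ℕ, 1 ≤ N₀ ∧ ∀ m n : I,
    N₀ ≤ ((n : ℤ) - m).natAbs →
      A * f ((n : ℤ) - m).natAbs ≤ dist (p n) (p m) ∧
      dist (p n) (p m) ≤ B * f ((n : ℤ) - m).natAbs

/-- The `I`-indexed sequence distortion spectrum. -/
def spectrum (I : Set ℤ) (X : Type) [MetricSpace X] : Set (Quotient growthSetoid) :=
  {c | ∃ f : {f : ℕ → ℝ // IsRate f}, Quotient.mk growthSetoid f = c ∧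
    ∃ p : I → X, IsDistorted I f.1 p}

end Pool.Agent.R337.AC
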