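import Mathlib
import Pool.Agent.R337.AC.Defs
import Pool.Agent.R337.AC.Coeff

/-!
The valued rational vector space of sequences in a normed field of exponentially bounded growth
along an ultrafilter.
-/

open Filter Topology Cardinal

namespace Pool.Agent.R337.AC

section basic
variable {K : Type} [NontriviallyNormedField K] [CharZero K]
variable {ω : Ultrafilter ℕ} (r : Scales)

/-- The rescaled size of a sequence. -/
noncomputable def sz (x : ℕ → K) (i : ℕ) : ℝ := ‖x i‖ ^ (r.r i)⁻¹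

theorem sz_nonneg (x : ℕ → K) (i : ℕ) : 0 ≤ sz r x i := Real.rpow_nonneg (norm_nonneg _) _

theorem inv_tendsto (hω : (ω : Filter ℕ) ≤ atTop) :
    Tendsto (fun i => (r.r i)⁻¹) (ω : Filter ℕ) (𝓝 0) :=
  r.tendsto.inv_tendsto_atTop.mono_left hω

theorem const_tendsto (hω : (ω : Filter ℕ) ≤ atTop) {c : ℝ} (hc : 0 < c) :
    Tendsto (fun i => c ^ (r.r i)⁻¹) (ω : Filter ℕ) (𝓝 1) := by
  have h := (tendsto_const_nhds (x := c) (f := (ω : Filter ℕ))).rpow (inv_tendsto r hω)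
    (Or.inl hc.ne')
  simpa using h

theorem sz_add (x y : ℕ → K) (i : ℕ) :
    sz r (x + y) i ≤ (2 : ℝ) ^ (r.r i)⁻¹ * max (sz r x i) (sz r y i) := by
  have hp : 0 ≤ (r.r i)⁻¹ := (inv_pos.mpr (r.pos i)).le
  have h1 : ∀ a b : ℝ, 0 ≤ a → a ≤ b → (a + b) ^ (r.r i)⁻¹ ≤ (2 : ℝ) ^ (r.r i)⁻¹ * b ^ (r.r i)⁻¹ := by
    intro a b ha hab
    rw [← Real.mul_rpow (by norm_num) (ha.trans hab)]
    exact Real.rpow_le_rpow (by linarith) (by linarith) hp
  have h2 : sz r (x + y) i ≤ (‖x i‖ + ‖y i‖) ^ (r.r i)⁻¹ :=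
    Real.rpow_le_rpow (norm_nonneg _) (norm_add_le _ _) hp
  refine h2.trans ?_
  have hpos : (0 : ℝ) ≤ (2 : ℝ) ^ (r.r i)⁻¹ := Real.rpow_nonneg (by norm_num) _
  rcases le_total ‖x i‖ ‖y i‖ with h | h
  · exact (h1 _ _ (norm_nonneg _) h).trans (mul_le_mul_of_nonneg_left (le_max_right _ _) hpos)
  · rw [add_comm]
    exact (h1 _ _ (norm_nonneg _) h).trans (mul_le_mul_of_nonneg_left (le_max_left _ _) hpos)

theorem sz_mul (x y : ℕ → K) (i : ℕ) : sz r (x * y) i = sz r x i * sz r y i := by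
  unfold sz
  rw [Pi.mul_apply, norm_mul, Real.mul_rpow (norm_nonneg _) (norm_nonneg _)]

theorem sz_smul (q : ℚ) (x : ℕ → K) (i : ℕ) :
    sz r (q • x) i = ‖(q : K)‖ ^ (r.r i)⁻¹ * sz r x i := by
  unfold sz
  rw [Pi.smul_apply, Rat.smul_def, norm_mul, Real.mul_rpow (norm_nonneg _) (norm_nonneg _)]

theorem two_pow_le (hω : (ω : Filter ℕ) ≤ atTop) :
    ∀ᶠ i in (ω : Filter ℕ), (2 : ℝ) ^ (r.r i)⁻¹ ≤ 2 :=
  ((const_tendsto r hω (c := 2) (by norm_num)).eventually (eventually_le_nhds (by norm_num)))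

end basic

section
variable (K : Type) [NontriviallyNormedField K] [CharZero K]
variable (ω : Ultrafilter ℕ) (hω : (ω : Filter ℕ) ≤ atTop) (r : Scales)

/-- Sequences of at most exponential growth. -/
def bdd : Submodule ℚ (ℕ → K) where
  carrier := {x | ∃ C : ℝ, ∀ᶠ i in (ω : Filter ℕ), sz r x i ≤ C}
  add_mem' := by
    rintro x y ⟨C, hC⟩ ⟨D, hD⟩
    refine ⟨2 * max C D, ?_⟩
    filter_upwards [hC, hD, two_pow_le r hω] with i h1 h2 h3
    refine (sz_add r x y i).trans ?_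
    have h4 : max (sz r x i) (sz r y i) ≤ max C D := max_le_max h1 h2
    have h5 : 0 ≤ max (sz r x i) (sz r y i) := le_max_of_le_left (sz_nonneg r x i)
    calc (2 : ℝ) ^ (r.r i)⁻¹ * max (sz r x i) (sz r y i) ≤ 2 * max (sz r x i) (sz r y i) := by
          gcongr
      _ ≤ 2 * max C D := by gcongr
  zero_mem' := by
    refine ⟨0, Eventually.of_forall fun i => ?_⟩
    unfold sz
    rw [Pi.zero_apply, norm_zero, Real.zero_rpow (inv_pos.mpr (r.pos i)).ne']
  smul_mem' := by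
    rintro q x ⟨C, hC⟩
    by_cases hq : (q : K) = 0
    · refine ⟨0, Eventually.of_forall fun i => ?_⟩
      rw [sz_smul, hq, norm_zero, Real.zero_rpow (inv_pos.mpr (r.pos i)).ne', zero_mul]
    · refine ⟨2 * C, ?_⟩
      filter_upwards [hC, (const_tendsto r hω (norm_pos_iff.mpr hq)).eventually
        (eventually_le_nhds (show (1 : ℝ) < 2 by norm_num))] with i h1 h2
      rw [sz_smul]
      have h3 := sz_nonneg r x i
      calc ‖(q : K)‖ ^ (r.r i)⁻¹ * sz r x i ≤ 2 * sz r x i := by gcongr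
        _ ≤ 2 * C := by gcongr

variable {K ω hω r}

theorem mem_bdd {x : ℕ → K} : x ∈ bdd K ω hω r ↔ ∃ C : ℝ, ∀ᶠ i in (ω : Filter ℕ), sz r x i ≤ C :=
  Iff.rfl

/-- The limit size. -/
noncomputable def nu (x : bdd K ω hω r) : ℝ := limUnder (ω : Filter ℕ) (sz r x.1)

theorem nu_tendsto (x : bdd K ω hω r) : Tendsto (sz r x.1) (ω : Filter ℕ) (𝓝 (nu x)) := by
  obtain ⟨C, hC⟩ := mem_bdd.mp x.2
  refine tendsto_ulim ω (C := C) ?_
  filter_upwards [hC] with i hi
  rwa [abs_of_nonneg (sz_nonneg r _ _)]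

theorem nu_nonneg (x : bdd K ω hω r) : 0 ≤ nu x :=
  ge_of_tendsto' (nu_tendsto x) fun i => sz_nonneg r _ _

theorem nu_zero : nu (0 : bdd K ω hω r) = 0 := by
  refine tendsto_nhds_unique (nu_tendsto (0 : bdd K ω hω r)) ?_
  have : sz r ((0 : bdd K ω hω r) : ℕ → K) = fun _ => (0 : ℝ) := by
    funext i
    unfold sz
    rw [Submodule.coe_zero, Pi.zero_apply, norm_zero, Real.zero_rpow (inv_pos.mpr (r.pos i)).ne']
  rw [this]
  exact tendsto_const_nhds

theorem nu_add_le (x y : bdd K ω hω r) : nu (x + y) ≤ max (nu x) (nu y) := by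
  have h := (const_tendsto r hω (c := 2) (by norm_num)).mul ((nu_tendsto x).max (nu_tendsto y))
  rw [one_mul] at h
  exact le_of_tendsto_of_tendsto' (nu_tendsto (x + y)) h fun i => sz_add r x.1 y.1 i

theorem nu_smul (q : ℚ) (x : bdd K ω hω r) (hq : q ≠ 0) : nu (q • x) = nu x := by
  have hq' : (q : K) ≠ 0 := by exact_mod_cast hq
  have h := (const_tendsto r hω (norm_pos_iff.mpr hq')).mul (nu_tendsto x)
  rw [one_mul] at h
  refine tendsto_nhds_unique (nu_tendsto (q • x)) (h.congr fun i => ?_)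
  exact (sz_smul r q x.1 i).symm

theorem nu_complete (a : ℕ → bdd K ω hω r) (s : ℕ → ℝ)
    (h : ∀ n m, n ≤ m → nu (a m - a n) ≤ s n) : ∃ y, ∀ n, nu (y - a n) ≤ s n := by
  classical
  let G : ℕ → ℕ → Prop := fun n i =>
    ∀ k, k ≤ n → ‖(a n).1 i - (a k).1 i‖ ^ (r.r i)⁻¹ < s k + 1 / ((n : ℝ) + 1)
  have hG : ∀ n, ∀ᶠ i in (ω : Filter ℕ), G n i := by
    intro n
    have : ∀ k ∈ Set.Iic n, ∀ᶠ i in (ω : Filter ℕ),
        ‖(a n).1 i - (a k).1 i‖ ^ (r.r i)⁻¹ < s k + 1 / ((n : ℝ) + 1) := by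
      intro k hk
      have h1 : nu (a n - a k) < s k + 1 / ((n : ℝ) + 1) := by
        have : (0 : ℝ) < 1 / ((n : ℝ) + 1) := by positivity
        linarith [h k n hk]
      exact (nu_tendsto (a n - a k)).eventually (eventually_lt_nhds h1)
    have h2 := (eventually_all_finite (Set.finite_Iic n)).mpr this
    filter_upwards [h2] with i hi k hk using hi k hk
  let N : ℕ → ℕ := fun i => Nat.findGreatest (fun n => G n i) i
  let y : ℕ → K := fun i => (a (N i)).1 i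
  have key : ∀ n m, n ≤ m → ∀ᶠ i in (ω : Filter ℕ),
      sz r (y - (a n).1) i ≤ s n + 1 / ((m : ℝ) + 1) := by
    intro n m hnm
    filter_upwards [hG m, (eventually_ge_atTop m).filter_mono hω] with i h1 h2
    have h3 : m ≤ N i := Nat.le_findGreatest h2 h1
    have h4 : G (N i) i := Nat.findGreatest_spec (P := fun n => G n i) h2 h1
    have h5 := h4 n (hnm.trans h3)
    have h6 : 1 / ((N i : ℝ) + 1) ≤ 1 / ((m : ℝ) + 1) := by
      apply one_div_le_one_div_of_le (by positivity)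
      have : (m : ℝ) ≤ N i := by exact_mod_cast h3
      linarith
    have h7 : sz r (y - (a n).1) i = ‖(a (N i)).1 i - (a n).1 i‖ ^ (r.r i)⁻¹ := rfl
    rw [h7]
    linarith
  have hy0 : y - (a 0).1 ∈ bdd K ω hω r := mem_bdd.mpr ⟨_, key 0 0 le_rfl⟩
  have hy : y ∈ bdd K ω hω r := by
    have := (bdd K ω hω r).add_mem hy0 (a 0).2
    simpa using this
  refine ⟨⟨y, hy⟩, fun n => ?_⟩
  refine le_of_forall_pos_le_add fun ε hε => ?_
  obtain ⟨m, hm⟩ := exists_nat_one_div_lt hε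
  have h1 := key n (max n m) (le_max_left _ _)
  have h2 : nu ((⟨y, hy⟩ : bdd K ω hω r) - a n) ≤ s n + 1 / (((max n m : ℕ) : ℝ) + 1) :=
    le_of_tendsto (nu_tendsto _) h1
  have h3 : 1 / (((max n m : ℕ) : ℝ) + 1) ≤ 1 / ((m : ℝ) + 1) := by
    apply one_div_le_one_div_of_le (by positivity)
    have : (m : ℝ) ≤ ((max n m : ℕ) : ℝ) := by exact_mod_cast le_max_right n m
    linarith
  linarith

end

theorem shell (K : Type) [NontriviallyNormedField K] :
    ∃ C : ℝ, 0 < C ∧ ∀ ρ : ℝ, 0 < ρ → ∃ l : K, l ≠ 0 ∧ ‖l‖ ≤ ρ ∧ ρ / C ≤ ‖l‖ := by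
  obtain ⟨c, hc⟩ := NormedField.exists_one_lt_norm K
  refine ⟨‖c‖, by linarith, fun ρ hρ => ?_⟩
  obtain ⟨d, h1, h2, h3, -⟩ := rescale_to_shell hc hρ (one_ne_zero (α := K))
  rw [smul_eq_mul, mul_one] at h2 h3
  exact ⟨d, h1, h2.le, h3⟩

section
variable (K : Type) [NontriviallyNormedField K] [CharZero K] [CompleteSpace K]
variable (ω : Ultrafilter ℕ) (hω : (ω : Filter ℕ) ≤ atTop) (r : Scales)

theorem sz_tendsto_of_shell (hω : (ω : Filter ℕ) ≤ atTop) {s C : ℝ} (hs : 0 < s) (hC : 0 < C)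
    (e : ℕ → K) (h1 : ∀ i, ‖e i‖ ≤ s ^ r.r i) (h2 : ∀ i, s ^ r.r i / C ≤ ‖e i‖) :
    Tendsto (sz r e) (ω : Filter ℕ) (𝓝 s) := by
  have h3 := (const_tendsto (ω := ω) r hω (inv_pos.mpr hC)).mul_const s
  rw [one_mul] at h3
  have hpow : ∀ i, (s ^ r.r i) ^ (r.r i)⁻¹ = s := fun i => by
    rw [← Real.rpow_mul hs.le, mul_inv_cancel₀ (r.pos i).ne', Real.rpow_one]
  refine tendsto_of_tendsto_of_tendsto_of_le_of_le h3 tendsto_const_nhds (fun i => ?_) fun i => ?_
  · have hp : 0 ≤ (r.r i)⁻¹ := (inv_pos.mpr (r.pos i)).le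
    have h4 := Real.rpow_le_rpow (by positivity) (h2 i) hp
    rw [div_eq_inv_mul, Real.mul_rpow (by positivity) (by positivity), hpow] at h4
    exact h4
  · have hp : 0 ≤ (r.r i)⁻¹ := (inv_pos.mpr (r.pos i)).le
    have h4 := Real.rpow_le_rpow (norm_nonneg _) (h1 i) hp
    rw [hpow] at h4
    exact h4

theorem exists_low (s : ℝ) (hs : 0 < s) :
    ∃ g : ℝ → bdd K ω hω r, (∀ a, nu (g a) ≤ s) ∧ ∀ a b, a ≠ b → ¬ nu (g a - g b) < s := by
  obtain ⟨C, hC, hsh⟩ := shell K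
  choose l hl0 hl1 hl2 using hsh
  let e : ℕ → K := fun i => l (s ^ r.r i) (Real.rpow_pos_of_pos hs _)
  have he := sz_tendsto_of_shell K ω r hω hs hC e (fun i => hl1 _ _) (fun i => hl2 _ _)
  have hcard : #ℝ ≤ #K := by
    rw [mk_real]
    exact continuum_le_cardinal_of_nontriviallyNormedField K
  obtain ⟨j⟩ : Nonempty (ℝ ↪ K) := hcard
  have hmul : ∀ k : K, k ≠ 0 → Tendsto (sz r (fun i => k * e i)) (ω : Filter ℕ) (𝓝 s) := by
    intro k hk
    have h := (const_tendsto r hω (norm_pos_iff.mpr hk)).mul he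
    rw [one_mul] at h
    refine h.congr fun i => ?_
    exact (sz_mul r (fun _ => k) e i).symm
  have hmul0 : ∀ k : K, (fun i => k * e i) ∈ bdd K ω hω r := by
    intro k
    by_cases hk : k = 0
    · have : (fun i => k * e i) = 0 := by funext i; rw [hk, zero_mul]; rfl
      rw [this]; exact Submodule.zero_mem _
    · exact mem_bdd.mpr ⟨s + 1, (hmul k hk).eventually (eventually_le_nhds (by linarith))⟩
  obtain ⟨gg, hgg⟩ : ∃ gg : K → bdd K ω hω r, ∀ k i, (gg k).1 i = k * e i :=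
    ⟨fun k => ⟨fun i => k * e i, hmul0 k⟩, fun _ _ => rfl⟩
  have hsub : ∀ k k', gg k - gg k' = gg (k - k') := by
    intro k k'
    apply Subtype.ext
    funext i
    have : (gg k - gg k').1 i = (gg k).1 i - (gg k').1 i := rfl
    rw [this, hgg, hgg, hgg, sub_mul]
  have hgg' : ∀ k, (gg k).1 = fun i => k * e i := fun k => funext (hgg k)
  have hnu : ∀ k, k ≠ 0 → nu (gg k) = s := by
    intro k hk
    refine tendsto_nhds_unique (nu_tendsto (gg k)) ?_
    rw [hgg']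
    exact hmul k hk
  refine ⟨fun a => gg (j a), fun a => ?_, fun a b hab => ?_⟩
  · by_cases hk : j a = 0
    · have : gg (j a) = 0 := by
        rw [hk, ← sub_zero (0 : K), ← hsub, sub_self]
      change nu (gg (j a)) ≤ s
      rw [this, nu_zero]; exact hs.le
    · exact (hnu _ hk).le
  · have hk : j a - j b ≠ 0 := sub_ne_zero.mpr (j.injective.ne hab)
    change ¬ nu (gg (j a) - gg (j b)) < s
    rw [hsub, hnu _ hk]
    exact lt_irrefl s

theorem card_bdd (hK : #K ≤ 𝔠) : #(bdd K ω hω r) ≤ 𝔠 := by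
  calc #(bdd K ω hω r) ≤ #(ℕ → K) := mk_le_of_injective Subtype.val_injective
    _ = #K ^ ℵ₀ := by simp
    _ ≤ 𝔠 ^ ℵ₀ := power_le_power_right hK
    _ = 𝔠 := continuum_power_aleph0

theorem exists_valSpace (hK : #K ≤ 𝔠) :
    ∃ S : ValSpace ℝ (bdd K ω hω r), S.ν = nu := by
  have h : ∀ s : ℝ, ∃ c : bdd K ω hω r → ℝ,
      (∀ x y, nu x ≤ s → nu y ≤ s → c (x + y) = c x + c y) ∧
      (∀ (q : ℚ) x, nu x ≤ s → c (q • x) = q • c x) ∧
      (0 < s → ∀ x, nu x ≤ s → (c x = 0 ↔ nu x < s)) ∧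
      (0 < s → ∀ z, ∃ x, nu x ≤ s ∧ c x = z) := by
    intro s
    by_cases hs : 0 < s
    · obtain ⟨c, h1, h2, h3, h4⟩ := exists_coeff_one (nu (K := K) (hω := hω) (r := r)) nu_zero
        nu_add_le nu_smul (card_bdd K ω hω r hK) s hs (exists_low K ω hω r s hs)
      exact ⟨c, h1, h2, fun _ => h3, fun _ => h4⟩
    · refine ⟨fun _ => 0, ?_, ?_, fun h => absurd h hs, fun h => absurd h hs⟩
      · intro x y _ _; simp
      · intro q x _; simp
  choose c h1 h2 h3 h4 using h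
  exact ⟨{ ν := nu, c := c, nonneg := nu_nonneg, zero := nu_zero, add_le := nu_add_le,
           smul := nu_smul, c_add := h1, c_smul := h2, c_zero := fun s x hs => h3 s hs x,
           c_surj := fun s hs => h4 s hs, complete := fun a s _ h => nu_complete a s h }, rfl⟩

end

theorem exists_corr_seq (K L : Type) [NontriviallyNormedField K] [CharZero K] [CompleteSpace K]
    [NontriviallyNormedField L] [CharZero L] [CompleteSpace L] (hK : #K ≤ 𝔠) (hL : #L ≤ 𝔠)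
    (ω : Ultrafilter ℕ) (hω : (ω : Filter ℕ) ≤ atTop) (r : Scales) :
    ∃ R : bdd K ω hω r → bdd L ω hω r → Prop,
      (∀ x y x' y', R x y → R x' y' → nu (x - x') = nu (y - y')) ∧
      (∀ x, ∃ y, R x y) ∧ (∀ y, ∃ x, R x y) := by
  obtain ⟨S, hS⟩ := exists_valSpace K ω hω r hK
  obtain ⟨T, hT⟩ := exists_valSpace L ω hω r hL
  have := exists_rel S T
  rwa [hS, hT] at this

end Pool.Agent.R337.AC
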