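import Mathlib
import Pool.Agent.R337.AC.Seq

/-!
Spaces modelled on `K × ℝ` with the horospherical distance, and their asymptotic cones.
-/

open Filter Topology Cardinal

namespace Pool.Agent.R337.AC

/-- The model distance on `K × ℝ`. -/
noncomputable def modelDist {K : Type} [NormedAddCommGroup K] (p q : K × ℝ) : ℝ :=
  2 * Real.log (max (max (Real.exp p.2) (Real.exp q.2)) ‖p.1 - q.1‖) - p.2 - q.2

section
variable {K : Type} [NormedAddCommGroup K]

theorem modelDist_pos_arg (p q : K × ℝ) :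
    0 < max (max (Real.exp p.2) (Real.exp q.2)) ‖p.1 - q.1‖ :=
  lt_max_of_lt_left (lt_max_of_lt_left (Real.exp_pos _))

theorem le_modelDist_left (p q : K × ℝ) : q.2 - p.2 ≤ modelDist p q := by
  have h : q.2 ≤ Real.log (max (max (Real.exp p.2) (Real.exp q.2)) ‖p.1 - q.1‖) := by
    rw [Real.le_log_iff_exp_le (modelDist_pos_arg p q)]
    exact le_max_of_le_left (le_max_right _ _)
  unfold modelDist
  linarith

theorem le_modelDist_right (p q : K × ℝ) : p.2 - q.2 ≤ modelDist p q := by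
  have h : p.2 ≤ Real.log (max (max (Real.exp p.2) (Real.exp q.2)) ‖p.1 - q.1‖) := by
    rw [Real.le_log_iff_exp_le (modelDist_pos_arg p q)]
    exact le_max_of_le_left (le_max_left _ _)
  unfold modelDist
  linarith

theorem abs_le_modelDist (p q : K × ℝ) : |p.2 - q.2| ≤ modelDist p q :=
  abs_le.mpr ⟨by linarith [le_modelDist_left p q], le_modelDist_right p q⟩

theorem norm_le_modelDist (p q : K × ℝ) :
    ‖p.1 - q.1‖ ≤ Real.exp (modelDist p q + q.2) := by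
  have h1 : Real.log (max (max (Real.exp p.2) (Real.exp q.2)) ‖p.1 - q.1‖) ≤
      modelDist p q + q.2 := by
    have := le_modelDist_right p q
    unfold modelDist at this ⊢
    linarith
  have h2 := Real.exp_le_exp.mpr h1
  rw [Real.exp_log (modelDist_pos_arg p q)] at h2
  exact (le_max_right _ _).trans h2

end

/-- `Z` is parametrised by `K × ℝ` with the model distance up to an error of at most `1`. -/
structure IsModel (K Z : Type) [NormedAddCommGroup K] [MetricSpace Z] (ι : K × ℝ → Z) : Prop where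
  surj : Function.Surjective ι
  lower : ∀ p q, modelDist p q ≤ dist (ι p) (ι q)
  upper : ∀ p q, dist (ι p) (ι q) ≤ modelDist p q + 1

theorem isometryEquiv_of_rel {A B : Type} [PseudoMetricSpace A] [PseudoMetricSpace B]
    (R : A → B → Prop) (h1 : ∀ a, ∃ b, R a b) (h2 : ∀ b, ∃ a, R a b)
    (h3 : ∀ a a' b b', R a b → R a' b' → dist a a' = dist b b') :
    Nonempty (SeparationQuotient A ≃ᵢ SeparationQuotient B) := by
  choose f hf using h1
  let F : SeparationQuotient A → SeparationQuotient B :=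
    SeparationQuotient.lift (fun a => SeparationQuotient.mk (f a)) (by
      intro a a' h
      rw [SeparationQuotient.mk_eq_mk, Metric.inseparable_iff, ← h3 a a' _ _ (hf a) (hf a')]
      exact Metric.inseparable_iff.mp h)
  have hF : ∀ a, F (SeparationQuotient.mk a) = SeparationQuotient.mk (f a) := fun a => rfl
  have hiso : Isometry F := by
    apply Isometry.of_dist_eq
    intro x y
    obtain ⟨a, rfl⟩ := SeparationQuotient.surjective_mk x
    obtain ⟨b, rfl⟩ := SeparationQuotient.surjective_mk y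
    rw [hF, hF, SeparationQuotient.dist_mk, SeparationQuotient.dist_mk]
    exact (h3 a b _ _ (hf a) (hf b)).symm
  have hsurj : Function.Surjective F := by
    intro y
    obtain ⟨b, rfl⟩ := SeparationQuotient.surjective_mk y
    obtain ⟨a, ha⟩ := h2 b
    refine ⟨SeparationQuotient.mk a, ?_⟩
    rw [hF, SeparationQuotient.mk_eq_mk, Metric.inseparable_iff,
      ← h3 a a _ _ (hf a) ha, dist_self]
  exact ⟨⟨Equiv.ofBijective F ⟨hiso.injective, hsurj⟩, hiso⟩⟩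

theorem max_rpow' {a b p : ℝ} (ha : 0 ≤ a) (hb : 0 ≤ b) (hp : 0 ≤ p) :
    (max a b) ^ p = max (a ^ p) (b ^ p) := by
  rcases le_total a b with h | h
  · rw [max_eq_right h, max_eq_right (Real.rpow_le_rpow ha h hp)]
  · rw [max_eq_left h, max_eq_left (Real.rpow_le_rpow hb h hp)]

section
variable {K : Type} [NontriviallyNormedField K] [CharZero K]

theorem modelDist_affine (x0 l u u' : K) (t0 T T' : ℝ) :
    modelDist (x0 + l * u, t0 + T) (x0 + l * u', t0 + T') =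
      2 * Real.log (max (max (Real.exp T) (Real.exp T')) (‖l‖ / Real.exp t0 * ‖u - u'‖))
        - T - T' := by
  unfold modelDist
  have he := Real.exp_pos t0
  have h1 : ‖x0 + l * u - (x0 + l * u')‖ =
      Real.exp t0 * (‖l‖ / Real.exp t0 * ‖u - u'‖) := by
    rw [add_sub_add_left_eq_sub, ← mul_sub, norm_mul]
    field_simp
  simp only
  rw [h1, Real.exp_add, Real.exp_add, ← mul_max_of_nonneg _ _ he.le,
    ← mul_max_of_nonneg _ _ he.le, Real.log_mul he.ne', Real.log_exp]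
  · ring
  · exact (lt_max_of_lt_left (lt_max_of_lt_left (Real.exp_pos _))).ne'

variable {ω : Ultrafilter ℕ} {hω : (ω : Filter ℕ) ≤ atTop} {r : Scales}

theorem modelDist_tendsto {x0 l : ℕ → K} {t0 : ℕ → ℝ} {C : ℝ} (hC : 0 < C)
    (hl1 : ∀ i, ‖l i‖ ≤ Real.exp (t0 i)) (hl2 : ∀ i, Real.exp (t0 i) / C ≤ ‖l i‖)
    (u u' : bdd K ω hω r) {T T' : ℕ → ℝ} {α β : ℝ}
    (hT : Tendsto (fun i => T i / r.r i) (ω : Filter ℕ) (𝓝 α))
    (hT' : Tendsto (fun i => T' i / r.r i) (ω : Filter ℕ) (𝓝 β)) :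
    Tendsto (fun i => modelDist (x0 i + l i * u.1 i, t0 i + T i)
      (x0 i + l i * u'.1 i, t0 i + T' i) / r.r i) (ω : Filter ℕ)
      (𝓝 (2 * Real.log (max (max (Real.exp α) (Real.exp β)) (nu (u - u'))) - α - β)) := by
  have hκ : Tendsto (fun i => (‖l i‖ / Real.exp (t0 i)) ^ (r.r i)⁻¹) (ω : Filter ℕ) (𝓝 1) := by
    refine tendsto_of_tendsto_of_tendsto_of_le_of_le
      (const_tendsto (ω := ω) r hω (inv_pos.mpr hC)) tendsto_const_nhds (fun i => ?_) fun i => ?_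
    · have hp : 0 ≤ (r.r i)⁻¹ := (inv_pos.mpr (r.pos i)).le
      refine Real.rpow_le_rpow (inv_pos.mpr hC).le ?_ hp
      rw [le_div_iff₀ (Real.exp_pos _), inv_mul_eq_div]
      exact hl2 i
    · have hp : 0 ≤ (r.r i)⁻¹ := (inv_pos.mpr (r.pos i)).le
      refine Real.rpow_le_one (by positivity) ?_ hp
      rw [div_le_one (Real.exp_pos _)]
      exact hl1 i
  have hS := hκ.mul (nu_tendsto (u - u'))
  rw [one_mul] at hS
  have hmax := ((Real.continuous_exp.tendsto α).comp hT).max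
    ((Real.continuous_exp.tendsto β).comp hT')
  have hmax2 := hmax.max hS
  have hpos : max (max (Real.exp α) (Real.exp β)) (nu (u - u')) ≠ 0 :=
    (lt_max_of_lt_left (lt_max_of_lt_left (Real.exp_pos _))).ne'
  have hlog := ((hmax2.log hpos).const_mul 2).sub hT |>.sub hT'
  refine hlog.congr fun i => ?_
  have hr := r.pos i
  have hp : 0 ≤ (r.r i)⁻¹ := (inv_pos.mpr hr).le
  have hm : 0 < max (max (Real.exp (T i)) (Real.exp (T' i)))
      (‖l i‖ / Real.exp (t0 i) * ‖u.1 i - u'.1 i‖) :=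
    lt_max_of_lt_left (lt_max_of_lt_left (Real.exp_pos _))
  rw [modelDist_affine]
  have h1 : max (max ((Real.exp ∘ fun i => T i / r.r i) i) ((Real.exp ∘ fun i => T' i / r.r i) i))
      ((‖l i‖ / Real.exp (t0 i)) ^ (r.r i)⁻¹ * sz r (u - u').1 i) =
      (max (max (Real.exp (T i)) (Real.exp (T' i)))
        (‖l i‖ / Real.exp (t0 i) * ‖u.1 i - u'.1 i‖)) ^ (r.r i)⁻¹ := by
    rw [max_rpow' (le_max_of_le_left (Real.exp_pos _).le) (by positivity) hp,
      max_rpow' (Real.exp_pos _).le (Real.exp_pos _).le hp,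
      Real.mul_rpow (by positivity) (norm_nonneg _), ← Real.exp_mul, ← Real.exp_mul]
    rfl
  rw [h1, Real.log_rpow hm]
  field_simp

variable {Z : Type} [MetricSpace Z] {ι : K × ℝ → Z}

theorem dist_tendsto (hι : IsModel K Z ι) {x0 l : ℕ → K} {t0 : ℕ → ℝ} {C : ℝ} (hC : 0 < C)
    (hl1 : ∀ i, ‖l i‖ ≤ Real.exp (t0 i)) (hl2 : ∀ i, Real.exp (t0 i) / C ≤ ‖l i‖)
    (u u' : bdd K ω hω r) {T T' : ℕ → ℝ} {α β : ℝ}
    (hT : Tendsto (fun i => T i / r.r i) (ω : Filter ℕ) (𝓝 α))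
    (hT' : Tendsto (fun i => T' i / r.r i) (ω : Filter ℕ) (𝓝 β)) :
    Tendsto (fun i => dist (ι (x0 i + l i * u.1 i, t0 i + T i))
      (ι (x0 i + l i * u'.1 i, t0 i + T' i)) / r.r i) (ω : Filter ℕ)
      (𝓝 (2 * Real.log (max (max (Real.exp α) (Real.exp β)) (nu (u - u'))) - α - β)) := by
  have h1 := modelDist_tendsto (x0 := x0) hC hl1 hl2 u u' hT hT'
  have h2 := h1.add (inv_tendsto r hω)
  rw [add_zero] at h2
  refine tendsto_of_tendsto_of_tendsto_of_le_of_le h1 h2 (fun i => ?_) fun i => ?_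
  · exact div_le_div_of_nonneg_right (hι.lower _ _) (r.pos i).le
  · simp only
    rw [div_eq_mul_inv _ (r.r i), div_eq_mul_inv _ (r.r i), ← add_one_mul]
    exact mul_le_mul_of_nonneg_right (hι.upper _ _) (inv_pos.mpr (r.pos i)).le

theorem param_exists (hι : IsModel K Z ι) {x0 l : ℕ → K} {t0 : ℕ → ℝ} {C : ℝ} (hC : 0 < C)
    (hl0 : ∀ i, l i ≠ 0) (hl2 : ∀ i, Real.exp (t0 i) / C ≤ ‖l i‖)
    (a : ConeSeq ω (fun i => ι (x0 i, t0 i)) r) :
    ∃ (u : bdd K ω hω r) (T : ℕ → ℝ), (∃ D : ℝ, ∀ᶠ i in (ω : Filter ℕ), |T i / r.r i| ≤ D) ∧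
      ∀ i, a.1 i = ι (x0 i + l i * u.1 i, t0 i + T i) := by
  choose p hp using hι.surj
  obtain ⟨D, hD⟩ := a.2
  have hD' : ∀ᶠ i in (ω : Filter ℕ),
      modelDist (p (a.1 i)) (x0 i, t0 i) ≤ D * r.r i := by
    filter_upwards [hD] with i hi
    refine (hι.lower _ _).trans ?_
    rwa [hp]
  let u : ℕ → K := fun i => (l i)⁻¹ * ((p (a.1 i)).1 - x0 i)
  have hu : u ∈ bdd K ω hω r := by
    refine mem_bdd.mpr ⟨2 * Real.exp D, ?_⟩
    filter_upwards [hD', (const_tendsto r hω hC).eventually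
        (eventually_le_nhds (show (1 : ℝ) < 2 by norm_num))] with i h1 h2
    have h3 := norm_le_modelDist (p (a.1 i)) (x0 i, t0 i)
    simp only at h3
    have h4 : ‖u i‖ ≤ C * Real.exp (D * r.r i) := by
      change ‖(l i)⁻¹ * ((p (a.1 i)).1 - x0 i)‖ ≤ _
      rw [norm_mul, norm_inv, inv_mul_le_iff₀ (norm_pos_iff.mpr (hl0 i))]
      refine h3.trans ?_
      rw [Real.exp_add]
      have h5 : Real.exp (modelDist (p (a.1 i)) (x0 i, t0 i)) ≤ Real.exp (D * r.r i) :=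
        Real.exp_le_exp.mpr h1
      have h6 := hl2 i
      rw [div_le_iff₀ hC] at h6
      calc Real.exp (modelDist (p (a.1 i)) (x0 i, t0 i)) * Real.exp (t0 i)
          ≤ Real.exp (D * r.r i) * (‖l i‖ * C) := by gcongr
        _ = ‖l i‖ * (C * Real.exp (D * r.r i)) := by ring
    have hp' : 0 ≤ (r.r i)⁻¹ := (inv_pos.mpr (r.pos i)).le
    have h7 := Real.rpow_le_rpow (norm_nonneg _) h4 hp'
    rw [Real.mul_rpow hC.le (Real.exp_pos _).le, ← Real.exp_mul, mul_assoc,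
      mul_inv_cancel₀ (r.pos i).ne', mul_one] at h7
    refine h7.trans ?_
    gcongr
  refine ⟨⟨u, hu⟩, fun i => (p (a.1 i)).2 - t0 i, ⟨D, ?_⟩, fun i => ?_⟩
  · filter_upwards [hD'] with i h1
    rw [abs_div, abs_of_pos (r.pos i), div_le_iff₀ (r.pos i)]
    exact (abs_le_modelDist (p (a.1 i)) (x0 i, t0 i)).trans h1
  · have h1 : x0 i + l i * u i = (p (a.1 i)).1 := by
      change x0 i + l i * ((l i)⁻¹ * ((p (a.1 i)).1 - x0 i)) = _
      rw [mul_inv_cancel_left₀ (hl0 i)]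
      ring
    have h2 : t0 i + ((p (a.1 i)).2 - t0 i) = (p (a.1 i)).2 := by ring
    simp only
    rw [h1, h2, Prod.mk.eta, hp]

theorem param_mem (hι : IsModel K Z ι) {x0 l : ℕ → K} {t0 : ℕ → ℝ} {C : ℝ} (hC : 0 < C)
    (hl1 : ∀ i, ‖l i‖ ≤ Real.exp (t0 i)) (hl2 : ∀ i, Real.exp (t0 i) / C ≤ ‖l i‖)
    (u : bdd K ω hω r) {T : ℕ → ℝ}
    (hT : ∃ D : ℝ, ∀ᶠ i in (ω : Filter ℕ), |T i / r.r i| ≤ D) :
    ∃ D : ℝ, ∀ᶠ i in (ω : Filter ℕ),
      dist (ι (x0 i + l i * u.1 i, t0 i + T i)) (ι (x0 i, t0 i)) ≤ D * r.r i := by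
  obtain ⟨D, hD⟩ := hT
  obtain ⟨α, hα⟩ := exists_ulim ω hD
  have h0 : Tendsto (fun i => (0 : ℝ) / r.r i) (ω : Filter ℕ) (𝓝 0) := by simp
  have h1 := dist_tendsto (T' := fun _ => 0) hι (x0 := x0) hC hl1 hl2 u 0 hα h0
  refine ⟨2 * Real.log (max (max (Real.exp α) (Real.exp 0)) (nu (u - 0))) - α - 0 + 1, ?_⟩
  filter_upwards [h1.eventually (eventually_le_nhds (lt_add_one _))] with i hi
  rw [div_le_iff₀ (r.pos i)] at hi
  have e : x0 i + l i * (0 : bdd K ω hω r).1 i = x0 i := by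
    have : (0 : bdd K ω hω r).1 i = 0 := rfl
    rw [this, mul_zero, add_zero]
  rwa [e, add_zero] at hi

end

theorem cone_isometry {K L Z Z' : Type} [NontriviallyNormedField K] [CharZero K] [CompleteSpace K]
    [NontriviallyNormedField L] [CharZero L] [CompleteSpace L] (hK : #K ≤ 𝔠) (hL : #L ≤ 𝔠)
    [MetricSpace Z] [MetricSpace Z'] {ι : K × ℝ → Z} {ι' : L × ℝ → Z'}
    (hι : IsModel K Z ι) (hι' : IsModel L Z' ι')
    (ω : Ultrafilter ℕ) (hω : (ω : Filter ℕ) ≤ atTop) (r : Scales) (x : ℕ → Z) (y : ℕ → Z') :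
    Nonempty (Cone ω x r ≃ᵢ Cone ω y r) := by
  obtain ⟨R, hΓ, hΓ1, hΓ2⟩ := exists_corr_seq K L hK hL ω hω r
  choose p hp using hι.surj
  choose p' hp' using hι'.surj
  obtain ⟨C, hC, hsh⟩ := shell K
  obtain ⟨C', hC', hsh'⟩ := shell L
  choose l hl0 hl1 hl2 using fun i => hsh (Real.exp (p (x i)).2) (Real.exp_pos _)
  choose l' hl0' hl1' hl2' using fun i => hsh' (Real.exp (p' (y i)).2) (Real.exp_pos _)
  have hx : x = fun i => ι ((p (x i)).1, (p (x i)).2) := by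
    funext i; rw [Prod.mk.eta, hp]
  have hy : y = fun i => ι' ((p' (y i)).1, (p' (y i)).2) := by
    funext i; rw [Prod.mk.eta, hp']
  obtain ⟨x0, hx0⟩ : ∃ x0 : ℕ → K, x0 = fun i => (p (x i)).1 := ⟨_, rfl⟩
  obtain ⟨t0, ht0⟩ : ∃ t0 : ℕ → ℝ, t0 = fun i => (p (x i)).2 := ⟨_, rfl⟩
  obtain ⟨y0, hy0⟩ : ∃ y0 : ℕ → L, y0 = fun i => (p' (y i)).1 := ⟨_, rfl⟩
  obtain ⟨s0, hs0⟩ : ∃ s0 : ℕ → ℝ, s0 = fun i => (p' (y i)).2 := ⟨_, rfl⟩
  replace hx : x = fun i => ι (x0 i, t0 i) := by rw [hx0, ht0]; exact hx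
  replace hy : y = fun i => ι' (y0 i, s0 i) := by rw [hy0, hs0]; exact hy
  replace hl1 : ∀ i, ‖l i‖ ≤ Real.exp (t0 i) := by rw [ht0]; exact hl1
  replace hl2 : ∀ i, Real.exp (t0 i) / C ≤ ‖l i‖ := by rw [ht0]; exact hl2
  replace hl1' : ∀ i, ‖l' i‖ ≤ Real.exp (s0 i) := by rw [hs0]; exact hl1'
  replace hl2' : ∀ i, Real.exp (s0 i) / C' ≤ ‖l' i‖ := by rw [hs0]; exact hl2'
  clear hx0 ht0 hy0 hs0
  subst hx hy
  refine isometryEquiv_of_rel (fun a b => ∃ (u : bdd K ω hω r) (w : bdd L ω hω r) (T : ℕ → ℝ),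
    (∃ D : ℝ, ∀ᶠ i in (ω : Filter ℕ), |T i / r.r i| ≤ D) ∧ R u w ∧
    (∀ i, a.1 i = ι (x0 i + l i * u.1 i, t0 i + T i)) ∧
    (∀ i, b.1 i = ι' (y0 i + l' i * w.1 i, s0 i + T i))) (fun a => ?_) (fun b => ?_) ?_
  · obtain ⟨u, T, hT, ha⟩ := param_exists (hω := hω) hι hC hl0 hl2 a
    obtain ⟨w, hw⟩ := hΓ1 u
    exact ⟨⟨fun i => ι' (y0 i + l' i * w.1 i, s0 i + T i),
      param_mem hι' hC' hl1' hl2' w hT⟩, u, w, T, hT, hw, ha, fun _ => rfl⟩
  · obtain ⟨w, T, hT, hb⟩ := param_exists (hω := hω) hι' hC' hl0' hl2' b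
    obtain ⟨u, hu⟩ := hΓ2 w
    exact ⟨⟨fun i => ι (x0 i + l i * u.1 i, t0 i + T i),
      param_mem hι hC hl1 hl2 u hT⟩, u, w, T, hT, hu, fun _ => rfl, hb⟩
  · rintro a a' b b' ⟨u, w, T, ⟨D, hD⟩, hΓ0, ha, hb⟩ ⟨u', w', T', ⟨D', hD'⟩, hΓ0', ha', hb'⟩
    obtain ⟨α, hα⟩ := exists_ulim ω hD
    obtain ⟨β, hβ⟩ := exists_ulim ω hD'
    have h1 := dist_tendsto hι (x0 := x0) hC hl1 hl2 u u' hα hβ
    have h2 := dist_tendsto hι' (x0 := y0) hC' hl1' hl2' w w' hα hβ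
    have h3 : nu (u - u') = nu (w - w') := hΓ u w u' w' hΓ0 hΓ0'
    have e1 : dist a a' = 2 * Real.log (max (max (Real.exp α) (Real.exp β)) (nu (u - u')))
        - α - β := by
      rw [cone_dist_def]
      refine tendsto_nhds_unique (coneDist_tendsto a a') (h1.congr fun i => ?_)
      rw [ha, ha']
    have e2 : dist b b' = 2 * Real.log (max (max (Real.exp α) (Real.exp β)) (nu (w - w')))
        - α - β := by
      rw [cone_dist_def]
      refine tendsto_nhds_unique (coneDist_tendsto b b') (h2.congr fun i => ?_)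
      rw [hb, hb']
    rw [e1, e2, h3]

end Pool.Agent.R337.AC
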