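import Mathlib
import Pool.Agent.R337.AC.Model

/-!
The two spaces: a horocyclic metric on the plane and the tree of an ultrametric field.
-/

open Filter Topology Cardinal

namespace Pool.Agent.R337.AC

section paths
variable {X : Type} [MetricSpace X]

def HasPath (p q : X) (L : ℝ) : Prop :=
  0 ≤ L ∧ ∃ γ : ℝ → X, (∀ s t, dist (γ s) (γ t) ≤ |s - t|) ∧ γ 0 = p ∧ γ L = q

theorem HasPath.symm {p q : X} {L : ℝ} (h : HasPath p q L) : HasPath q p L := by
  obtain ⟨hL, γ, h1, h2, h3⟩ := h
  refine ⟨hL, fun s => γ (L - s), fun s t => ?_, by simpa using h3, by simpa using h2⟩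
  have := h1 (L - s) (L - t)
  rwa [sub_sub_sub_cancel_left, abs_sub_comm] at this

theorem HasPath.trans {p q s : X} {L L' : ℝ} (h : HasPath p q L) (h' : HasPath q s L') :
    HasPath p s (L + L') := by
  obtain ⟨hL, γ, h1, h2, h3⟩ := h
  obtain ⟨hL', γ', h1', h2', h3'⟩ := h'
  have key : ∀ u v, u ≤ L → L < v → dist (γ u) (γ' (v - L)) ≤ |u - v| := by
    intro u v hu hv
    have e1 := h1 u L
    have e2 := h1' 0 (v - L)
    rw [h3] at e1
    rw [h2'] at e2
    rw [abs_of_nonpos (by linarith)] at e1 e2 ⊢
    linarith [dist_triangle (γ u) q (γ' (v - L))]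
  refine ⟨by linarith, fun u => if u ≤ L then γ u else γ' (u - L), fun u v => ?_, ?_, ?_⟩
  · by_cases hu : u ≤ L <;> by_cases hv : v ≤ L
    · simp only [hu, hv, if_true]; exact h1 u v
    · simp only [hu, hv, if_true, if_false]; exact key u v hu (not_le.mp hv)
    · simp only [hu, hv, if_true, if_false]
      rw [dist_comm, abs_sub_comm]; exact key v u hv (not_le.mp hu)
    · simp only [hu, hv, if_false]
      have := h1' (u - L) (v - L)
      rwa [sub_sub_sub_cancel_right] at this
  · simp only [hL, if_true]; exact h2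
  · by_cases h : L + L' ≤ L
    · have : L' = 0 := by linarith
      subst this
      simp only [add_zero, le_refl, if_true]
      rw [h3, ← h2', h3']
    · simp only [h, if_false, add_sub_cancel_left]; exact h3'

theorem isGeodesic_of_hasPath (h : ∀ p q : X, HasPath p q (dist p q)) : IsGeodesic X := by
  intro p q
  obtain ⟨-, γ, h1, h2, h3⟩ := h p q
  have key : ∀ s ∈ Set.Icc (0 : ℝ) (dist p q), ∀ t ∈ Set.Icc (0 : ℝ) (dist p q), s ≤ t →
      dist (γ s) (γ t) = |s - t| := by
    intro s hs t ht hst
    apply le_antisymm (h1 s t)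
    have e1 := h1 0 s
    have e2 := h1 t (dist p q)
    rw [h2, abs_of_nonpos (by linarith [hs.1])] at e1
    rw [h3, abs_of_nonpos (by linarith [ht.2])] at e2
    rw [abs_of_nonpos (by linarith)]
    linarith [dist_triangle p (γ s) q, dist_triangle (γ s) (γ t) q]
  refine ⟨γ, h2, h3, fun s hs t ht => ?_⟩
  rcases le_total s t with hst | hst
  · exact key s hs t ht hst
  · rw [dist_comm, abs_sub_comm]; exact key t ht s hs hst

end paths

theorem properSpace_of_isModel {K Z : Type} [NormedAddCommGroup K] [ProperSpace K] [MetricSpace Z]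
    {ι : K × ℝ → Z} (hι : IsModel K Z ι) (hc : Continuous ι) : ProperSpace Z := by
  refine ⟨fun z R => ?_⟩
  obtain ⟨p, rfl⟩ := hι.surj z
  have hcomp : IsCompact (ι '' (Metric.closedBall p.1 (Real.exp (R + p.2)) ×ˢ
      Set.Icc (p.2 - R) (p.2 + R))) :=
    ((isCompact_closedBall _ _).prod isCompact_Icc).image hc
  refine hcomp.of_isClosed_subset Metric.isClosed_closedBall ?_
  intro w hw
  obtain ⟨q, rfl⟩ := hι.surj w
  rw [Metric.mem_closedBall] at hw
  have h1 := (hι.lower q p).trans hw
  have h2 := (abs_le_modelDist q p).trans h1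
  have h3 := (norm_le_modelDist q p).trans (Real.exp_le_exp.mpr (by linarith :
    modelDist q p + p.2 ≤ R + p.2))
  rw [abs_le] at h2
  refine ⟨q, ⟨?_, ?_, ?_⟩, rfl⟩
  · rw [Metric.mem_closedBall, dist_eq_norm]; exact h3
  · linarith [h2.1]
  · linarith [h2.2]

/-! ### The plane with the horocyclic metric -/

/-- Points of the plane. -/
@[ext]
structure HorPlane where
  x : ℝ
  t : ℝ

namespace HorPlane

/-- The optimal height parameter (exponentiated). -/
noncomputable def top (p q : HorPlane) : ℝ :=
  max (|p.x - q.x| / 2) (max (Real.exp p.t) (Real.exp q.t))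

theorem top_pos (p q : HorPlane) : 0 < top p q :=
  lt_max_of_lt_right (lt_max_of_lt_left (Real.exp_pos _))

theorem top_comm (p q : HorPlane) : top p q = top q p := by
  unfold top
  rw [abs_sub_comm, max_comm (Real.exp p.t)]

/-- The horocyclic distance. -/
noncomputable def hdist (p q : HorPlane) : ℝ :=
  2 * Real.log (top p q) + |p.x - q.x| / top p q - p.t - q.t

theorem hdist_le (p q : HorPlane) {u : ℝ} (h1 : Real.exp p.t ≤ u) (h2 : Real.exp q.t ≤ u) :
    hdist p q ≤ 2 * Real.log u + |p.x - q.x| / u - p.t - q.t := by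
  have hu : 0 < u := lt_of_lt_of_le (Real.exp_pos _) h1
  have hU := top_pos p q
  have hw : 0 < top p q / u := div_pos hU hu
  have hlog := Real.log_le_sub_one_of_pos hw
  rw [Real.log_div hU.ne' hu.ne'] at hlog
  have ha := abs_nonneg (p.x - q.x)
  set a := |p.x - q.x| with ha'
  set U := top p q with hU'
  have hgoal : 2 * (U / u - 1) ≤ a / u - a / U := by
    have e : a / u - a / U = (a / U) * (U / u - 1) := by field_simp
    rw [e]
    rcases le_total (max (Real.exp p.t) (Real.exp q.t)) (a / 2) with h | h
    · have hUa : U = a / 2 := by rw [hU']; unfold top; rw [← ha', max_eq_left h]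
      have : a / U = 2 := by
        rw [div_eq_iff hU.ne', hUa]
        ring
      rw [this]
    · have hUm : U = max (Real.exp p.t) (Real.exp q.t) := by
        rw [hU']; unfold top; rw [← ha', max_eq_right h]
      have h3 : U ≤ u := by rw [hUm]; exact max_le h1 h2
      have h4 : U / u - 1 ≤ 0 := by
        rw [sub_nonpos, div_le_one hu]; exact h3
      have h5 : a / U ≤ 2 := by
        rw [div_le_iff₀ hU]
        rw [← hUm] at h
        linarith
      nlinarith
  unfold hdist
  rw [← ha', ← hU']
  linarith

theorem exp_left_le_top (p q : HorPlane) : Real.exp p.t ≤ top p q :=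
  le_max_of_le_right (le_max_left _ _)

theorem exp_right_le_top (p q : HorPlane) : Real.exp q.t ≤ top p q :=
  le_max_of_le_right (le_max_right _ _)

theorem left_le_log_top (p q : HorPlane) : p.t ≤ Real.log (top p q) := by
  rw [Real.le_log_iff_exp_le (top_pos p q)]; exact exp_left_le_top p q

theorem right_le_log_top (p q : HorPlane) : q.t ≤ Real.log (top p q) := by
  rw [Real.le_log_iff_exp_le (top_pos p q)]; exact exp_right_le_top p q

theorem hdist_comm (p q : HorPlane) : hdist p q = hdist q p := by
  unfold hdist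
  rw [top_comm, abs_sub_comm]
  ring

theorem hdist_triangle_aux (p q s : HorPlane) (h : top q s ≤ top p q) :
    hdist p s ≤ hdist p q + hdist q s := by
  have h1 := hdist_le p s (exp_left_le_top p q) ((exp_right_le_top q s).trans h)
  refine h1.trans ?_
  have h2 := right_le_log_top p q
  have h3 := left_le_log_top q s
  have hU := top_pos p q
  have hV := top_pos q s
  have h4 : |q.x - s.x| / top p q ≤ |q.x - s.x| / top q s :=
    div_le_div_of_nonneg_left (abs_nonneg _) hV h
  have h5 : |p.x - s.x| / top p q ≤ |p.x - q.x| / top p q + |q.x - s.x| / top p q := by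
    rw [← add_div]
    exact div_le_div_of_nonneg_right (abs_sub_le _ _ _) hU.le
  unfold hdist
  linarith

theorem hdist_triangle (p q s : HorPlane) : hdist p s ≤ hdist p q + hdist q s := by
  rcases le_total (top q s) (top p q) with h | h
  · exact hdist_triangle_aux p q s h
  · have := hdist_triangle_aux s q p (by rwa [top_comm q p, top_comm s q])
    rw [hdist_comm p s, hdist_comm p q, hdist_comm q s]
    linarith

theorem hdist_self (p : HorPlane) : hdist p p = 0 := by
  unfold hdist top
  simp [(Real.exp_pos _).le]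
  ring

theorem eq_of_hdist_eq_zero (p q : HorPlane) (h : hdist p q = 0) : p = q := by
  have h1 := left_le_log_top p q
  have h2 := right_le_log_top p q
  have h3 : 0 ≤ |p.x - q.x| / top p q := div_nonneg (abs_nonneg _) (top_pos p q).le
  unfold hdist at h
  have h4 : |p.x - q.x| / top p q = 0 := by linarith
  have h5 : p.t = q.t := by linarith
  rw [div_eq_zero_iff] at h4
  rcases h4 with h4 | h4
  · exact HorPlane.ext (by linarith [abs_eq_zero.mp h4]) h5
  · exact absurd h4 (top_pos p q).ne'

noncomputable instance : MetricSpace HorPlane where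
  dist := hdist
  dist_self := hdist_self
  dist_comm := hdist_comm
  dist_triangle := hdist_triangle
  eq_of_dist_eq_zero := fun {p q} h => eq_of_hdist_eq_zero p q h

theorem dist_def (p q : HorPlane) : dist p q = hdist p q := rfl

/-- The parametrisation. -/
def par (p : ℝ × ℝ) : HorPlane := ⟨p.1, p.2⟩

theorem isModel : IsModel ℝ HorPlane par where
  surj := fun p => ⟨(p.x, p.t), rfl⟩
  lower := fun p q => by
    rw [dist_def]
    unfold hdist modelDist
    have hU := top_pos (par p) (par q)
    have h1 := exp_left_le_top (par p) (par q)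
    have h2 := exp_right_le_top (par p) (par q)
    set U := top (par p) (par q)
    have e1 : (par p).x = p.1 := rfl
    have e2 : (par q).x = q.1 := rfl
    have e3 : (par p).t = p.2 := rfl
    have e4 : (par q).t = q.2 := rfl
    rw [e3] at h1
    rw [e4] at h2
    rw [e1, e2, e3, e4, Real.norm_eq_abs]
    have key : 2 * Real.log (max (max (Real.exp p.2) (Real.exp q.2)) |p.1 - q.1|) ≤
        2 * Real.log U + |p.1 - q.1| / U := by
      rcases le_total |p.1 - q.1| (max (Real.exp p.2) (Real.exp q.2)) with h | h
      · rw [max_eq_left h]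
        have h3 : Real.log (max (Real.exp p.2) (Real.exp q.2)) ≤ Real.log U :=
          Real.log_le_log (lt_max_of_lt_left (Real.exp_pos _)) (max_le h1 h2)
        have h4 : 0 ≤ |p.1 - q.1| / U := div_nonneg (abs_nonneg _) hU.le
        linarith
      · rw [max_eq_right h]
        have ha : 0 < |p.1 - q.1| := lt_of_lt_of_le (lt_max_of_lt_left (Real.exp_pos _)) h
        have h3 := Real.log_le_sub_one_of_pos (show 0 < |p.1 - q.1| / U / 2 by positivity)
        rw [Real.log_div (by positivity) (by norm_num), Real.log_div ha.ne' hU.ne'] at h3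
        have h4 := Real.log_two_lt_d9
        linarith
    linarith
  upper := fun p q => by
    rw [dist_def]
    have h1 : Real.exp (par p).t ≤ max (max (Real.exp p.2) (Real.exp q.2)) ‖p.1 - q.1‖ :=
      le_max_of_le_left (le_max_left _ _)
    have h2 : Real.exp (par q).t ≤ max (max (Real.exp p.2) (Real.exp q.2)) ‖p.1 - q.1‖ :=
      le_max_of_le_left (le_max_right _ _)
    refine (hdist_le _ _ h1 h2).trans ?_
    unfold modelDist
    have e1 : (par p).x = p.1 := rfl
    have e2 : (par q).x = q.1 := rfl
    have e3 : (par p).t = p.2 := rfl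
    have e4 : (par q).t = q.2 := rfl
    rw [e1, e2, e3, e4]
    have h3 : |p.1 - q.1| / max (max (Real.exp p.2) (Real.exp q.2)) ‖p.1 - q.1‖ ≤ 1 := by
      rw [div_le_one (modelDist_pos_arg p q), Real.norm_eq_abs]
      exact le_max_right _ _
    linarith

theorem continuous_par : Continuous par := by
  rw [continuous_iff_continuousAt]
  intro p
  rw [ContinuousAt, tendsto_iff_dist_tendsto_zero]
  have hcont : Continuous (fun q : ℝ × ℝ => dist (par q) (par p)) := by
    have e : (fun q : ℝ × ℝ => dist (par q) (par p)) = fun q : ℝ × ℝ =>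
        2 * Real.log (max (|q.1 - p.1| / 2) (max (Real.exp q.2) (Real.exp p.2))) +
        |q.1 - p.1| / (max (|q.1 - p.1| / 2) (max (Real.exp q.2) (Real.exp p.2))) - q.2 - p.2 := rfl
    rw [e]
    have hpos : ∀ q : ℝ × ℝ, max (|q.1 - p.1| / 2) (max (Real.exp q.2) (Real.exp p.2)) ≠ 0 :=
      fun q => (lt_max_of_lt_right (lt_max_of_lt_left (Real.exp_pos _))).ne'
    have hU : Continuous (fun q : ℝ × ℝ =>
        max (|q.1 - p.1| / 2) (max (Real.exp q.2) (Real.exp p.2))) := by fun_prop
    have ha : Continuous (fun q : ℝ × ℝ => |q.1 - p.1|) := by fun_prop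
    exact ((((hU.log hpos).const_mul 2).add (ha.div hU hpos)).sub continuous_snd).sub
      continuous_const
  have := hcont.tendsto p
  rwa [dist_self] at this

instance : ProperSpace HorPlane := properSpace_of_isModel isModel continuous_par

theorem dist_vert (x s t : ℝ) : dist (⟨x, s⟩ : HorPlane) ⟨x, t⟩ = |s - t| := by
  rw [dist_def]
  unfold hdist top
  simp only [sub_self, abs_zero, zero_div, add_zero]
  rw [max_eq_right (le_max_of_le_left (Real.exp_pos _).le)]
  rcases le_total s t with h | h
  · rw [max_eq_right (Real.exp_le_exp.mpr h), Real.log_exp, abs_of_nonpos (by linarith)]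
    ring
  · rw [max_eq_left (Real.exp_le_exp.mpr h), Real.log_exp, abs_of_nonneg (by linarith)]
    ring

theorem hasPath_up (x : ℝ) {s t : ℝ} (h : s ≤ t) :
    HasPath (⟨x, s⟩ : HorPlane) ⟨x, t⟩ (t - s) := by
  refine ⟨by linarith, fun u => ⟨x, s + u⟩, fun u v => ?_, by simp, by simp⟩
  rw [dist_vert]
  simp

theorem hasPath_across (x y t : ℝ) :
    HasPath (⟨x, t⟩ : HorPlane) ⟨y, t⟩ (|x - y| / Real.exp t) := by
  have he := Real.exp_pos t
  refine ⟨by positivity, fun u => ⟨x + u * Real.exp t * SignType.sign (y - x), t⟩,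
    fun u v => ?_, by simp, ?_⟩
  · rw [dist_def]
    refine (hdist_le _ _ (u := Real.exp t) le_rfl le_rfl).trans ?_
    simp only [Real.log_exp]
    have e : x + u * Real.exp t * (SignType.sign (y - x) : ℝ) -
        (x + v * Real.exp t * (SignType.sign (y - x) : ℝ)) =
        (u - v) * Real.exp t * (SignType.sign (y - x) : ℝ) := by ring
    rw [e, abs_mul, abs_mul, abs_of_pos he]
    have h1 : |((SignType.sign (y - x) : SignType) : ℝ)| ≤ 1 := by
      rcases SignType.sign (y - x) with _ | _ | _ <;> simp
    have h2 : |u - v| * Real.exp t * |((SignType.sign (y - x) : SignType) : ℝ)| / Real.exp t ≤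
        |u - v| := by
      rw [div_le_iff₀ he]
      have : 0 ≤ |u - v| * Real.exp t := by positivity
      nlinarith
    linarith
  · ext
    · simp only
      rw [div_mul_cancel₀ _ he.ne', abs_sub_comm, abs_mul_sign]
      ring
    · rfl

theorem isGeodesic : IsGeodesic HorPlane := by
  apply isGeodesic_of_hasPath
  intro p q
  have h1 := hasPath_up p.x (left_le_log_top p q)
  have h2 := hasPath_across p.x q.x (Real.log (top p q))
  have h3 := (hasPath_up q.x (right_le_log_top p q)).symm
  have h4 := (h1.trans h2).trans h3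
  rw [Real.exp_log (top_pos p q)] at h4
  have e : Real.log (top p q) - p.t + |p.x - q.x| / top p q + (Real.log (top p q) - q.t) =
      dist p q := by
    rw [dist_def]; unfold hdist; ring
  rw [e] at h4
  exact h4

end HorPlane

end Pool.Agent.R337.AC
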