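import Mathlib
import Pool.Agent.R337.AC.Spaces

/-!
The tree of an ultrametric field.
-/

open Filter Topology Cardinal

namespace Pool.Agent.R337.AC

/-- Pairs of a field element and a height. -/
structure PreTree (K : Type) where
  x : K
  t : ℝ

namespace PreTree
variable {K : Type} [NormedAddCommGroup K] [IsUltrametricDist K]

/-- The height (exponentiated) at which two points meet. -/
noncomputable def meet (p q : PreTree K) : ℝ :=
  max (max (Real.exp p.t) (Real.exp q.t)) ‖p.x - q.x‖

omit [IsUltrametricDist K] in
theorem meet_pos (p q : PreTree K) : 0 < meet p q :=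
  lt_max_of_lt_left (lt_max_of_lt_left (Real.exp_pos _))

omit [IsUltrametricDist K] in
theorem meet_comm (p q : PreTree K) : meet p q = meet q p := by
  unfold meet
  rw [norm_sub_rev, max_comm (Real.exp p.t)]

theorem meet_le (p q s : PreTree K) : meet p s ≤ max (meet p q) (meet q s) := by
  unfold meet
  refine max_le (max_le ?_ ?_) ?_
  · exact le_max_of_le_left (le_max_of_le_left (le_max_left _ _))
  · exact le_max_of_le_right (le_max_of_le_left (le_max_right _ _))
  · have h : ‖p.x - s.x‖ ≤ max ‖p.x - q.x‖ ‖q.x - s.x‖ := by
      have := IsUltrametricDist.norm_add_le_max (p.x - q.x) (q.x - s.x)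
      rwa [sub_add_sub_cancel] at this
    exact h.trans (max_le_max (le_max_right _ _) (le_max_right _ _))

/-- Logarithmic height of the meeting point. -/
noncomputable def ht (p q : PreTree K) : ℝ := Real.log (meet p q)

theorem ht_le (p q s : PreTree K) : ht p s ≤ max (ht p q) (ht q s) := by
  unfold ht
  rcases le_max_iff.mp (meet_le p q s) with h | h
  · exact le_max_of_le_left (Real.log_le_log (meet_pos _ _) h)
  · exact le_max_of_le_right (Real.log_le_log (meet_pos _ _) h)

omit [IsUltrametricDist K] in
theorem ht_comm (p q : PreTree K) : ht p q = ht q p := by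
  unfold ht; rw [meet_comm]

omit [IsUltrametricDist K] in
theorem left_le_ht (p q : PreTree K) : p.t ≤ ht p q := by
  unfold ht
  rw [Real.le_log_iff_exp_le (meet_pos p q)]
  exact le_max_of_le_left (le_max_left _ _)

omit [IsUltrametricDist K] in
theorem right_le_ht (p q : PreTree K) : q.t ≤ ht p q := by
  rw [ht_comm]; exact left_le_ht q p

noncomputable instance : PseudoMetricSpace (PreTree K) where
  dist p q := 2 * ht p q - p.t - q.t
  dist_self p := by
    have : ht p p = p.t := by
      unfold ht meet
      rw [sub_self, norm_zero, max_self, max_eq_left (Real.exp_pos _).le, Real.log_exp]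
    rw [this]; ring
  dist_comm p q := by rw [ht_comm]; ring
  dist_triangle p q s := by
    have h1 := ht_le p q s
    have h2 := right_le_ht p q
    have h3 := left_le_ht q s
    rcases le_max_iff.mp h1 with h | h <;> linarith

theorem dist_def (p q : PreTree K) : dist p q = 2 * ht p q - p.t - q.t := rfl

theorem ht_four (a b c d : PreTree K) :
    ht a b + ht c d ≤ max (ht a c + ht b d) (ht a d + ht b c) := by
  have h1 := ht_le a c b
  have h2 := ht_le a d b
  have h3 := ht_le c a d
  have h4 := ht_le c b d
  rw [ht_comm c b] at h1 h4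
  rw [ht_comm d b] at h2
  rw [ht_comm c a] at h3
  rw [le_max_iff] at h1 h2 h3 h4 ⊢
  by_contra hcon
  push Not at hcon
  obtain ⟨h5, h6⟩ := hcon
  rcases le_total (ht a b) (ht c d) with h | h <;>
  rcases h1 with h1 | h1 <;> rcases h2 with h2 | h2 <;> rcases h3 with h3 | h3 <;>
    rcases h4 with h4 | h4 <;> linarith

end PreTree

/-- The tree of an ultrametric field. -/
abbrev UTree (K : Type) [NormedAddCommGroup K] [IsUltrametricDist K] : Type :=
  SeparationQuotient (PreTree K)

namespace UTree
variable {K : Type} [NormedAddCommGroup K] [IsUltrametricDist K]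

/-- The parametrisation. -/
noncomputable def par (p : K × ℝ) : UTree K := SeparationQuotient.mk ⟨p.1, p.2⟩

theorem dist_par (p q : K × ℝ) : dist (par p) (par q) = modelDist p q := by
  unfold par
  rw [SeparationQuotient.dist_mk, PreTree.dist_def]
  rfl

theorem isModel : IsModel K (UTree K) par where
  surj := fun z => by
    obtain ⟨p, rfl⟩ := SeparationQuotient.surjective_mk z
    exact ⟨(p.x, p.t), rfl⟩
  lower := fun p q => (dist_par p q).ge
  upper := fun p q => by rw [dist_par]; linarith

theorem continuous_par : Continuous (par (K := K)) := by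
  rw [continuous_iff_continuousAt]
  intro p
  rw [ContinuousAt, tendsto_iff_dist_tendsto_zero]
  have hcont : Continuous (fun q : K × ℝ => dist (par q) (par p)) := by
    have e : (fun q : K × ℝ => dist (par q) (par p)) = fun q : K × ℝ =>
        2 * Real.log (max (max (Real.exp q.2) (Real.exp p.2)) ‖q.1 - p.1‖) - q.2 - p.2 := by
      funext q
      rw [dist_par]; rfl
    rw [e]
    have hpos : ∀ q : K × ℝ, max (max (Real.exp q.2) (Real.exp p.2)) ‖q.1 - p.1‖ ≠ 0 :=
      fun q => (lt_max_of_lt_left (lt_max_of_lt_left (Real.exp_pos _))).ne'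
    have hU : Continuous (fun q : K × ℝ =>
        max (max (Real.exp q.2) (Real.exp p.2)) ‖q.1 - p.1‖) := by fun_prop
    exact (((hU.log hpos).const_mul 2).sub continuous_snd).sub continuous_const
  have := hcont.tendsto p
  rwa [dist_self] at this

instance [ProperSpace K] : ProperSpace (UTree K) := properSpace_of_isModel isModel continuous_par

theorem dist_vert (x : K) (s t : ℝ) : dist (par (x, s)) (par (x, t)) = |s - t| := by
  rw [dist_par]
  unfold modelDist
  simp only [sub_self, norm_zero]
  rw [max_eq_left (le_max_of_le_left (Real.exp_pos _).le)]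
  rcases le_total s t with h | h
  · rw [max_eq_right (Real.exp_le_exp.mpr h), Real.log_exp, abs_of_nonpos (by linarith)]
    ring
  · rw [max_eq_left (Real.exp_le_exp.mpr h), Real.log_exp, abs_of_nonneg (by linarith)]
    ring

theorem hasPath_up (x : K) {s t : ℝ} (h : s ≤ t) :
    HasPath (par (x, s)) (par (x, t)) (t - s) := by
  refine ⟨by linarith, fun u => par (x, s + u), fun u v => ?_, by simp, by simp⟩
  rw [dist_vert]
  simp

theorem isGeodesic : IsGeodesic (UTree K) := by
  apply isGeodesic_of_hasPath
  intro p q
  obtain ⟨⟨x, s⟩, rfl⟩ := (isModel (K := K)).surj p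
  obtain ⟨⟨y, t⟩, rfl⟩ := (isModel (K := K)).surj q
  have hm := modelDist_pos_arg (x, s) (y, t)
  set M := Real.log (max (max (Real.exp s) (Real.exp t)) ‖x - y‖) with hM
  have hs : s ≤ M := by
    rw [hM, Real.le_log_iff_exp_le hm]; exact le_max_of_le_left (le_max_left _ _)
  have ht : t ≤ M := by
    rw [hM, Real.le_log_iff_exp_le hm]; exact le_max_of_le_left (le_max_right _ _)
  have heq : par (x, M) = par (y, M) := by
    rw [← dist_eq_zero, dist_par]
    unfold modelDist
    have h1 : ‖x - y‖ ≤ Real.exp M := by
      rw [hM, Real.exp_log hm]; exact le_max_right _ _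
    simp only
    rw [max_self, max_eq_left h1, Real.log_exp]
    ring
  have h1 := hasPath_up x hs
  have h2 := (hasPath_up y ht).symm
  rw [heq] at h1
  have h3 := h1.trans h2
  have e : M - s + (M - t) = dist (par (x, s)) (par (y, t)) := by
    rw [dist_par]
    unfold modelDist
    simp only
    rw [← hM]
    ring
  rwa [e] at h3

theorem four_point (a b c d : UTree K) :
    dist a b + dist c d ≤ max (dist a c + dist b d) (dist a d + dist b c) := by
  obtain ⟨a, rfl⟩ := SeparationQuotient.surjective_mk a
  obtain ⟨b, rfl⟩ := SeparationQuotient.surjective_mk b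
  obtain ⟨c, rfl⟩ := SeparationQuotient.surjective_mk c
  obtain ⟨d, rfl⟩ := SeparationQuotient.surjective_mk d
  simp only [SeparationQuotient.dist_mk, PreTree.dist_def]
  rcases le_max_iff.mp (PreTree.ht_four a b c d) with h | h
  · apply le_max_of_le_left; linarith
  · apply le_max_of_le_right; linarith

end UTree

end Pool.Agent.R337.AC
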