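import Mathlib
import Pool.Agent.R337.AC.Tree

/-!
Logarithmic distortion occurs in the horocyclic plane and does not occur in trees.
-/

open Filter Topology

namespace Pool.Agent.R337.AC

/-- The logarithmic rate. -/
noncomputable def logRate (n : ℕ) : ℝ := Real.log ((n : ℝ) + 1)

theorem log_two_ge {n : ℕ} (h : 2 ≤ n) : 1 ≤ logRate n := by
  unfold logRate
  rw [Real.le_log_iff_exp_le (by positivity)]
  have h1 := Real.exp_one_lt_d9
  have h2 : (2 : ℝ) ≤ n := by exact_mod_cast h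
  linarith

theorem logRate_nonneg (n : ℕ) : 0 ≤ logRate n :=
  Real.log_nonneg (by have : (0 : ℝ) ≤ n := Nat.cast_nonneg n; linarith)

theorem logRate_mono {m n : ℕ} (h : m ≤ n) : logRate m ≤ logRate n := by
  apply Real.log_le_log (by positivity)
  have : (m : ℝ) ≤ n := by exact_mod_cast h
  linarith

theorem logRate_mul_le {M : ℕ} (hM : 1 ≤ M) (n : ℕ) :
    logRate (M * n) ≤ Real.log M + logRate n := by
  unfold logRate
  have hM' : (1 : ℝ) ≤ M := by exact_mod_cast hM
  rw [← Real.log_mul (by positivity) (by positivity)]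
  apply Real.log_le_log (by positivity)
  push_cast
  nlinarith

theorem logRate_unbounded (C : ℝ) : ∃ N : ℕ, 1 ≤ N ∧ ∀ n, N ≤ n → C < logRate n := by
  obtain ⟨N, hN⟩ := exists_nat_gt (Real.exp C)
  refine ⟨max N 1, le_max_right _ _, fun n hn => ?_⟩
  unfold logRate
  rw [Real.lt_log_iff_exp_lt (by positivity)]
  have : (N : ℝ) ≤ n := by exact_mod_cast (le_max_left N 1).trans hn
  linarith

theorem isRate_logRate : IsRate logRate where
  pos n hn := by
    apply Real.log_pos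
    have : (1 : ℝ) ≤ n := by exact_mod_cast hn
    linarith
  mono m n _ h := logRate_mono h
  unbounded C := by
    obtain ⟨N, hN, h⟩ := logRate_unbounded C
    exact ⟨N, hN, h N le_rfl⟩
  scaling M hM := by
    have hM' : (1 : ℝ) ≤ M := by exact_mod_cast hM
    have hlog : 0 ≤ Real.log M := Real.log_nonneg hM'
    refine ⟨1, 1 + Real.log M, one_pos, by linarith, 2, fun N hN => ⟨?_, ?_⟩⟩
    · rw [one_mul]
      exact logRate_mono (Nat.le_mul_of_pos_left N hM)
    · have h1 := logRate_mul_le hM N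
      have h2 := log_two_ge hN
      nlinarith

theorem distorted_horPlane (I : Set ℤ) :
    IsDistorted I logRate (fun n : I => (⟨((n : ℤ) : ℝ), 0⟩ : HorPlane)) := by
  refine ⟨1, 3, one_pos, by norm_num, 2, by norm_num, fun m n hmn => ?_⟩
  obtain ⟨N, hN⟩ : ∃ N, N = ((n : ℤ) - m).natAbs := ⟨_, rfl⟩
  rw [← hN] at hmn ⊢
  have hN2 : (2 : ℝ) ≤ N := by exact_mod_cast hmn
  have habs : |((n : ℤ) : ℝ) - ((m : ℤ) : ℝ)| = N := by
    rw [hN, Nat.cast_natAbs]
    push_cast
    rfl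
  have hmod : modelDist (((n : ℤ) : ℝ), (0 : ℝ)) (((m : ℤ) : ℝ), (0 : ℝ)) =
      2 * Real.log N := by
    unfold modelDist
    simp only
    rw [Real.norm_eq_abs, habs, max_self, Real.exp_zero, max_eq_right (by linarith)]
    ring
  have h1 := HorPlane.isModel.lower (((n : ℤ) : ℝ), (0 : ℝ)) (((m : ℤ) : ℝ), (0 : ℝ))
  have h2 := HorPlane.isModel.upper (((n : ℤ) : ℝ), (0 : ℝ)) (((m : ℤ) : ℝ), (0 : ℝ))
  rw [hmod] at h1 h2
  have h3 : logRate N ≤ 2 * Real.log N := by
    unfold logRate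
    have e : 2 * Real.log N = Real.log ((N : ℝ) ^ 2) := by
      rw [Real.log_pow]; norm_num
    rw [e]
    apply Real.log_le_log (by positivity)
    nlinarith
  have h4 : Real.log N ≤ logRate N := by
    apply Real.log_le_log (by linarith)
    linarith
  have h5 := log_two_ge hmn
  constructor
  · rw [one_mul]; exact h3.trans h1
  · refine h2.trans ?_
    linarith

section tree
variable {Y : Type} [MetricSpace Y]
  (h4 : ∀ a b c d : Y, dist a b + dist c d ≤ max (dist a c + dist b d) (dist a d + dist b c))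
  (hgeo : IsGeodesic Y) (q : ℕ → Y) (L : ℝ) (hq : ∀ j, dist (q j) (q (j + 1)) ≤ L)

include hq in
theorem jumps (i k : ℕ) : dist (q i) (q (i + k)) ≤ k * L := by
  induction k with
  | zero => simp
  | succ k ih =>
    have h1 := hq (i + k)
    have h2 := dist_triangle (q i) (q (i + k)) (q (i + (k + 1)))
    rw [add_assoc] at h1
    push_cast
    linarith

include h4 hq in
theorem chain (hL : 0 ≤ L) (m : Y) (a k : ℕ)
    (h : dist (q a) m + dist m (q (a + k)) ≤ dist (q a) (q (a + k))) :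
    ∃ j, a ≤ j ∧ j ≤ a + k ∧ dist m (q j) ≤ L := by
  induction k with
  | zero =>
    refine ⟨a, le_rfl, le_rfl, ?_⟩
    simp only [add_zero, dist_self] at h
    have h1 : 0 ≤ dist (q a) m := dist_nonneg
    linarith
  | succ k ih =>
    have h1 := hq (a + k)
    rw [add_assoc] at h1
    have h2 := h4 (q a) (q (a + (k + 1))) m (q (a + k))
    rcases le_max_iff.mp h2 with h3 | h3
    · refine ⟨a + (k + 1), by omega, le_rfl, ?_⟩
      rw [dist_comm (q (a + (k + 1))) (q (a + k))] at h3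
      have h5 : 0 ≤ dist m (q (a + k)) := dist_nonneg
      linarith
    · rw [dist_comm (q (a + (k + 1))) m] at h3
      obtain ⟨j, h5, h6, h7⟩ := ih (by linarith)
      exact ⟨j, h5, by omega, h7⟩

include h4 hgeo hq in
theorem doubling (hL : 0 ≤ L) (K : ℕ) (hK : ∀ i k, dist (q i) (q (i + k)) ≤ 2 * L → k ≤ K)
    (a n : ℕ) :
    dist (q a) (q (a + n)) + dist (q (a + n)) (q (a + n + n)) - 2 * ((K + 1) * L) ≤
      dist (q a) (q (a + n + n)) := by
  obtain ⟨c, hc⟩ : ∃ c, c = a + n := ⟨_, rfl⟩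
  rw [← hc]
  obtain ⟨γ, g1, g2, g3⟩ := hgeo (q c) (q a)
  obtain ⟨g, hg⟩ : ∃ g, g = (dist (q c) (q a) + dist (q c) (q (c + n)) -
    dist (q a) (q (c + n))) / 2 := ⟨_, rfl⟩
  have t1 := dist_triangle (q a) (q c) (q (c + n))
  have t2 := dist_triangle (q c) (q a) (q (c + n))
  rw [dist_comm (q a) (q c)] at t1
  have hg0 : 0 ≤ g := by rw [hg]; linarith
  have hg1 : g ≤ dist (q c) (q a) := by rw [hg]; linarith
  have hm1 : dist (q c) (γ g) = g := by
    have := g3 0 ⟨le_rfl, dist_nonneg⟩ g ⟨hg0, hg1⟩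
    rw [g1, zero_sub, abs_neg, abs_of_nonneg hg0] at this
    exact this
  have hm2 : dist (γ g) (q a) = dist (q c) (q a) - g := by
    have := g3 g ⟨hg0, hg1⟩ (dist (q c) (q a)) ⟨dist_nonneg, le_rfl⟩
    rw [g2, abs_of_nonpos (by linarith)] at this
    linarith
  have hca : dist (q a) (γ g) + dist (γ g) (q (a + n)) ≤ dist (q a) (q (a + n)) := by
    rw [← hc, dist_comm (q a) (γ g), hm2, dist_comm (γ g) (q c), hm1, dist_comm (q a) (q c)]
    linarith
  obtain ⟨i, hi1, hi2, hi3⟩ := chain h4 q L hq hL (γ g) a n hca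
  have h5 := h4 (γ g) (q (c + n)) (q a) (q c)
  have h6 : dist (γ g) (q (c + n)) ≤ dist (q c) (q (c + n)) - g := by
    rw [hm2, dist_comm (γ g) (q c), hm1, dist_comm (q (c + n)) (q c),
      dist_comm (q (c + n)) (q a), dist_comm (q a) (q c)] at h5
    rcases le_max_iff.mp h5 with h | h <;> linarith
  obtain ⟨j, hj1, hj2, hj3⟩ := chain h4 q L hq hL (γ g) c n (by rw [hm1]; linarith)
  have hij : dist (q i) (q j) ≤ 2 * L := by
    have := dist_triangle_left (q i) (q j) (γ g)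
    linarith
  obtain ⟨k, rfl⟩ : ∃ k, j = i + k := ⟨j - i, by omega⟩
  have hk := hK i k hij
  obtain ⟨k', hk'⟩ : ∃ k', c = i + k' := ⟨c - i, by omega⟩
  have h7 := jumps q L hq i k'
  rw [← hk'] at h7
  have h8 : (k' : ℝ) ≤ K := by
    have : k' ≤ K := by omega
    exact_mod_cast this
  have h9 : g ≤ (K + 1) * L := by
    have := dist_triangle_left (q c) (γ g) (q i)
    rw [hm1, dist_comm (q i) (γ g)] at this
    have h10 : (k' : ℝ) * L ≤ K * L := by gcongr
    linarith
  have h11 : dist (q a) (q c) = dist (q c) (q a) := dist_comm _ _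
  rw [h11]
  linarith

include h4 hgeo hq in
theorem no_log (hL : 0 ≤ L)
    (hlow : ∀ C : ℝ, ∃ N : ℕ, ∀ i k, N ≤ k → C < dist (q i) (q (i + k)))
    (β γ : ℝ) (hβ : 0 ≤ β) (hγ : 0 ≤ γ)
    (hup : ∀ k : ℕ, 1 ≤ k → dist (q 0) (q k) ≤ β * logRate k + γ) : False := by
  obtain ⟨K, hK⟩ := hlow (2 * L)
  have hK' : ∀ i k, dist (q i) (q (i + k)) ≤ 2 * L → k ≤ K := by
    intro i k h
    by_contra hcon
    exact absurd h (not_le.mpr (hK i k (by omega)))
  obtain ⟨Λ, hΛ⟩ : ∃ Λ : ℝ, Λ = 2 * ((K + 1) * L) := ⟨_, rfl⟩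
  have hΛ0 : 0 ≤ Λ := by rw [hΛ]; positivity
  obtain ⟨n0', hn0'⟩ := hlow (Λ + 1)
  obtain ⟨n0, hn0, hn01⟩ : ∃ n0 : ℕ, n0' ≤ n0 ∧ 1 ≤ n0 := ⟨max n0' 1, le_max_left _ _,
    le_max_right _ _⟩
  have key : ∀ k i : ℕ, Λ + 2 ^ k ≤ dist (q i) (q (i + 2 ^ k * n0)) := by
    intro k
    induction k with
    | zero =>
      intro i
      have := hn0' i n0 hn0
      rw [pow_zero, pow_zero, one_mul]
      exact this.le
    | succ k ih =>
      intro i
      have h1 := doubling h4 hgeo q L hq hL K hK' i (2 ^ k * n0)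
      have h2 := ih i
      have h3 := ih (i + 2 ^ k * n0)
      have e : i + 2 ^ (k + 1) * n0 = i + 2 ^ k * n0 + 2 ^ k * n0 := by ring
      rw [e, pow_succ]
      rw [← hΛ] at h1
      linarith
  have hub : ∀ k : ℕ, (2 : ℝ) ^ k ≤ β * k + (β * logRate n0 + γ) := by
    intro k
    have h1 := key k 0
    rw [zero_add] at h1
    have h2 := hup (2 ^ k * n0) (Nat.one_le_iff_ne_zero.mpr (by positivity))
    have h3 := logRate_mul_le (M := 2 ^ k) Nat.one_le_two_pow n0
    have h4 : Real.log ((2 ^ k : ℕ) : ℝ) ≤ k := by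
      push_cast
      rw [Real.log_pow]
      have := Real.log_two_lt_d9
      have hk : (0 : ℝ) ≤ k := Nat.cast_nonneg k
      nlinarith
    have h5 : β * logRate (2 ^ k * n0) ≤ β * (k + logRate n0) := by
      gcongr
      linarith
    linarith
  obtain ⟨c, hc⟩ : ∃ c, c = β * logRate n0 + γ := ⟨_, rfl⟩
  have hc0 : 0 ≤ c := by
    rw [hc]
    have := logRate_nonneg n0
    positivity
  obtain ⟨j, hj⟩ := exists_nat_gt (2 * β + c)
  have h1 := hub (2 * j)
  rw [← hc] at h1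
  have h2 : ((j : ℝ) + 1) ≤ 2 ^ j := by
    have : j + 1 ≤ 2 ^ j := Nat.lt_two_pow_self
    exact_mod_cast this
  have h3 : (2 : ℝ) ^ (2 * j) = 2 ^ j * 2 ^ j := by rw [two_mul, pow_add]
  rw [h3] at h1
  push_cast at h1
  have hj0 : (0 : ℝ) ≤ j := Nat.cast_nonneg j
  nlinarith [mul_le_mul h2 h2 (by positivity) (by positivity)]

end tree

theorem not_realizable {Y : Type} [MetricSpace Y]
    (h4 : ∀ a b c d : Y, dist a b + dist c d ≤ max (dist a c + dist b d) (dist a d + dist b c))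
    (hgeo : IsGeodesic Y) (I : Set ℤ) (hI : ∀ n : ℤ, 1 ≤ n → n ∈ I) (g : ℕ → ℝ)
    (hg : SameGrowth g logRate) (p : I → Y) : ¬ IsDistorted I g p := by
  rintro ⟨A, B, hA, hB, N₀, hN₀, hd⟩
  obtain ⟨c, C, hc, hC, N₁, hg⟩ := hg
  obtain ⟨M, hM0, hM1⟩ : ∃ M : ℕ, N₀ ≤ M ∧ N₁ ≤ M := ⟨max N₀ N₁, le_max_left _ _, le_max_right _ _⟩
  have hM : 1 ≤ M := hN₀.trans hM0
  have hmem : ∀ j : ℕ, ((M * (j + 1) : ℕ) : ℤ) ∈ I := fun j => hI _ (by
    have : 1 ≤ M * (j + 1) := Nat.one_le_iff_ne_zero.mpr (by positivity)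
    exact_mod_cast this)
  let q : ℕ → Y := fun j => p ⟨((M * (j + 1) : ℕ) : ℤ), hmem j⟩
  have hqd : ∀ i k : ℕ, 1 ≤ k → A * g (M * k) ≤ dist (q i) (q (i + k)) ∧
      dist (q i) (q (i + k)) ≤ B * g (M * k) := by
    intro i k hk
    have e : (((M * (i + 1) : ℕ) : ℤ) - ((M * (i + k + 1) : ℕ) : ℤ)).natAbs = M * k := by
      have : ((M * (i + 1) : ℕ) : ℤ) - ((M * (i + k + 1) : ℕ) : ℤ) = -((M * k : ℕ) : ℤ) := by
        push_cast; ring
      rw [this, Int.natAbs_neg, Int.natAbs_natCast]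
    have h1 := hd ⟨((M * (i + k + 1) : ℕ) : ℤ), hmem (i + k)⟩ ⟨((M * (i + 1) : ℕ) : ℤ), hmem i⟩
      (by
        simp only
        rw [e]
        exact hM0.trans (Nat.le_mul_of_pos_right M hk))
    simp only at h1
    rw [e] at h1
    exact h1
  have hgM : ∀ k : ℕ, 1 ≤ k → c * logRate (M * k) ≤ g (M * k) ∧
      g (M * k) ≤ C * logRate (M * k) := fun k hk =>
    hg _ (hM1.trans (Nat.le_mul_of_pos_right M hk))
  have hL : 0 ≤ B * g (M * 1) := by
    have h1 := (hgM 1 le_rfl).1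
    have h2 := logRate_nonneg (M * 1)
    have : 0 ≤ g (M * 1) := le_trans (by positivity) h1
    positivity
  refine no_log h4 hgeo q (B * g (M * 1)) (fun j => (hqd j 1 le_rfl).2) hL ?_ (B * C)
    (B * C * Real.log M) (by positivity) ?_ ?_
  · intro D
    obtain ⟨N, hN1, hN⟩ := logRate_unbounded (D / (A * c))
    refine ⟨N, fun i k hk => ?_⟩
    have hk1 : 1 ≤ k := hN1.trans hk
    have h1 := (hqd i k hk1).1
    have h2 := (hgM k hk1).1
    have h3 := hN k hk
    have h5 : logRate k ≤ logRate (M * k) := logRate_mono (Nat.le_mul_of_pos_left k hM)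
    rw [div_lt_iff₀ (by positivity)] at h3
    calc D < logRate k * (A * c) := h3
      _ ≤ logRate (M * k) * (A * c) := by gcongr
      _ = A * (c * logRate (M * k)) := by ring
      _ ≤ A * g (M * k) := by gcongr
      _ ≤ _ := h1
  · have : (1 : ℝ) ≤ M := by exact_mod_cast hM
    have := Real.log_nonneg this
    positivity
  · intro k hk
    have h1 := (hqd 0 k hk).2
    rw [zero_add] at h1
    have h2 := (hgM k hk).2
    have h3 := logRate_mul_le hM k
    calc dist (q 0) (q k) ≤ B * g (M * k) := h1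
      _ ≤ B * (C * logRate (M * k)) := by gcongr
      _ ≤ B * (C * (Real.log M + logRate k)) := by gcongr
      _ = B * C * logRate k + B * C * Real.log M := by ring

end Pool.Agent.R337.AC
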